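import Mathlib

/-! # X-rays of star-shaped polygons: definitions -/

noncomputable section

namespace Pool.Agent.XR

open MeasureTheory

open scoped ENNReal

/-- the Euclidean plane -/
abbrev V := EuclideanSpace ℝ (Fin 2)

/-- the frontier of `P` is a simple closed polygonal curve -/
def IsCurve (P : Set V) : Prop :=
  ∃ n : ℕ, ∃ v : ℕ → V, 3 ≤ n ∧ (∀ i, v (i + n) = v i) ∧
    (∀ i < n, ∀ j < n, i ≠ j → v i ≠ v j) ∧
    (∀ i < n, ∀ j < n, i ≠ j →
      segment ℝ (v i) (v (i + 1)) ∩ segment ℝ (v j) (v (j + 1)) ⊆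
        ({v i, v (i + 1)} : Set V) ∩ {v j, v (j + 1)}) ∧
    frontier P = ⋃ i ∈ Finset.range n, segment ℝ (v i) (v (i + 1))

/-- star-shaped polygons -/
def StarPolygon (P : Set V) : Prop :=
  IsCurve P ∧ IsCompact P ∧ (interior P).Nonempty ∧ ∃ p ∈ P, StarConvex ℝ p P

/-- the X-ray of `E` in the direction `u` -/
def xray (u : V) (E : Set V) (x : V) : ℝ≥0∞ := volume {t : ℝ | x + t • u ∈ E}

/-! ## Chains -/

/-- for `u`, `w` in the upper half plane: positive iff `w` lies clockwise from `u`, that is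
`u 0 / u 1 < w 0 / w 1` -/
def cr (u w : V) : ℝ := w 0 * u 1 - u 0 * w 1

/-- the triangle with the vertices `0, u, w` -/
def tri (u w : V) : Set V :=
  {z | ∃ a b : ℝ, 0 ≤ a ∧ 0 ≤ b ∧ a + b ≤ 1 ∧ z = a • u + b • w}

/-- the region below the polygonal chain `v 0, ..., v n` as seen from `0` -/
def chainSet (n : ℕ) (v : ℕ → V) : Set V := {z | ∃ k < n, z ∈ tri (v k) (v (k + 1))}

/-- a clockwise chain in the upper half plane; radial edges are allowed, but no two consecutive
ones and not at the ends -/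
structure Chain (n : ℕ) (v : ℕ → V) : Prop where
  one_le : 1 ≤ n
  pos : ∀ k ≤ n, 0 < v k 1
  mono : ∀ k < n, 0 ≤ cr (v k) (v (k + 1))
  ne : ∀ k < n, v k ≠ v (k + 1)
  alt : ∀ k, k + 1 < n → 0 < cr (v k) (v (k + 1)) ∨ 0 < cr (v (k + 1)) (v (k + 2))
  first : 0 < cr (v 0) (v 1)
  last : 0 < cr (v (n - 1)) (v n)

/-! ## Frames -/

/-- first coordinate in the frame `r` -/
def al (r : ℕ) (z : V) : ℝ := z 0 - r * z 1

/-- second coordinate in the frame `r` -/
def be (r : ℕ) (z : V) : ℝ := r * z 0 + z 1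

/-- the point with coordinates `(a * h, h)` in the frame `r` -/
def W (r : ℕ) (a h : ℝ) : V := !₂[h * (a + r) / (1 + r ^ 2), h * (1 - r * a) / (1 + r ^ 2)]

/-! ## Cells -/

/-- a piece of the boundary: between the rays with the parameters `a` and `b` it has height `h`,
if `md` is true then it has the height `k` between the parameters `p` and `q` -/
structure Cell where
  a : ℝ
  b : ℝ
  h : ℝ
  md : Bool
  p : ℝ
  q : ℝ
  k : ℝ

/-- parameters of the six vertices -/
def Cell.pos (C : Cell) (i : ℕ) : ℝ :=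
  if i = 0 then C.a
  else if i = 1 then C.p
  else if i = 2 then (if C.md = true then C.p else (2 * C.p + C.q) / 3)
  else if i = 3 then (if C.md = true then C.q else (C.p + 2 * C.q) / 3)
  else if i = 4 then C.q
  else C.b

/-- heights of the six vertices -/
def Cell.ht (C : Cell) (i : ℕ) : ℝ :=
  if i = 2 then (if C.md = true then C.k else C.h)
  else if i = 3 then (if C.md = true then C.k else C.h)
  else C.h

structure Cell.Ok (C : Cell) : Prop where
  hap : C.a < C.p
  hpq : C.p < C.q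
  hqb : C.q < C.b
  hh : 0 < C.h
  hk : 0 < C.k
  hne : C.h ≠ C.k

/-- the chain of the cells `C 0, C 1, ...`, where `Nc` consecutive cells belong to one frame -/
def vtx (Nc : ℕ) (C : ℕ → Cell) (k : ℕ) : V :=
  W (k / 6 / Nc) ((C (k / 6)).pos (k % 6)) ((C (k / 6)).ht (k % 6))

/-- the cells are in order -/
structure CellsOk (R Nc : ℕ) (ρ : ℝ) (C : ℕ → Cell) : Prop where
  hR : 1 ≤ R
  hN : 1 ≤ Nc
  hρ : 0 < ρ
  hρ' : 4 * (1 + (R : ℝ) ^ 2) * ρ ≤ 1
  ok : ∀ c < R * Nc, (C c).Ok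
  lo : ∀ c < R * Nc, -ρ ≤ (C c).a
  hi : ∀ c < R * Nc, (C c).b ≤ ρ
  lt : ∀ c, c + 1 < R * Nc → c / Nc = (c + 1) / Nc → (C c).b < (C (c + 1)).a

/-- the polygon of the cells -/
def cellPoly (R Nc : ℕ) (C : ℕ → Cell) : Set V := chainSet (6 * (R * Nc) - 1) (vtx Nc C)

/-- the trapezoid in the frame `r` with the parameters `s, y` -/
def trap (r : ℕ) (s y σ₀ σ₁ : ℝ) : Set V :=
  {z | y ≤ be r z ∧ be r z ≤ 2 * y ∧ (s + σ₀) * be r z ≤ y * al r z ∧
    y * al r z ≤ (s + σ₁) * be r z}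

/-! ## The index cube -/

/-- the index set -/
abbrev E (m : ℕ) := (Fin m × Bool) → Bool

/-- the sign -/
def sg {m : ℕ} (ε : E m) : ℝ := ∏ a, if ε a = true then (-1 : ℝ) else 1

/-- the sum over a subset -/
def ss {m : ℕ} (f : Fin m × Bool → ℝ) (ε : E m) : ℝ := ∑ a, if ε a = true then f a else 0

end Pool.Agent.XR
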