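import Mathlib
import Pool.Agent.XR.Defs

/-! # X-rays: module CUBE -/

noncomputable section

namespace Pool.Agent.XR

open MeasureTheory

open scoped ENNReal

namespace CUBE

/-- flip one coordinate -/
def flip {m : ℕ} (a : Fin m × Bool) (ε : E m) : E m := Function.update ε a (!ε a)

theorem flip_same {m : ℕ} (a : Fin m × Bool) (ε : E m) : flip a ε a = !ε a := by
  simp [flip]

theorem flip_ne {m : ℕ} (a b : Fin m × Bool) (h : b ≠ a) (ε : E m) : flip a ε b = ε b := by
  simp [flip, h]

theorem flip_flip {m : ℕ} (a : Fin m × Bool) (ε : E m) : flip a (flip a ε) = ε := by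
  funext b
  by_cases h : b = a
  · subst h
    rw [flip_same, flip_same, Bool.not_not]
  · rw [flip_ne _ _ h, flip_ne _ _ h]

theorem sum_flip {m : ℕ} (a : Fin m × Bool) (f : E m → ℝ) :
    ∑ ε : E m, f (flip a ε) = ∑ ε : E m, f ε :=
  Equiv.sum_comp (⟨flip a, flip a, flip_flip a, flip_flip a⟩ : E m ≃ E m) f

theorem sg_flip {m : ℕ} (a : Fin m × Bool) (ε : E m) : sg (flip a ε) = -sg ε := by
  unfold sg
  rw [← Finset.mul_prod_erase Finset.univ _ (Finset.mem_univ a),
    ← Finset.mul_prod_erase Finset.univ (fun a => if ε a = true then (-1 : ℝ) else 1)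
      (Finset.mem_univ a), flip_same]
  have h : ∏ x ∈ Finset.univ.erase a, (if flip a ε x = true then (-1 : ℝ) else 1) =
      ∏ x ∈ Finset.univ.erase a, (if ε x = true then (-1 : ℝ) else 1) := by
    refine Finset.prod_congr rfl fun x hx => ?_
    rw [flip_ne _ _ (Finset.ne_of_mem_erase hx)]
  rw [h]
  cases ε a <;> simp

theorem ss_flip {m : ℕ} (f : Fin m × Bool → ℝ) (a : Fin m × Bool) (ε : E m) :
    ss f (flip a ε) = ss f ε + (if ε a = true then -f a else f a) := by
  unfold ss
  rw [← Finset.add_sum_erase Finset.univ _ (Finset.mem_univ a),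
    ← Finset.add_sum_erase Finset.univ (fun a => if ε a = true then f a else 0)
      (Finset.mem_univ a), flip_same]
  have h : ∑ x ∈ Finset.univ.erase a, (if flip a ε x = true then f x else 0) =
      ∑ x ∈ Finset.univ.erase a, (if ε x = true then f x else 0) := by
    refine Finset.sum_congr rfl fun x hx => ?_
    rw [flip_ne _ _ (Finset.ne_of_mem_erase hx)]
  rw [h]
  generalize (∑ x ∈ Finset.univ.erase a, (if ε x = true then f x else 0)) = X
  cases ε a
  · simp only [Bool.not_false, if_true, Bool.false_eq_true, if_false]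
    ring
  · simp only [Bool.not_true, Bool.false_eq_true, if_true, if_false]
    ring

end CUBE

open CUBE

theorem sg_eq {m : ℕ} (ε : E m) : sg ε = 1 ∨ sg ε = -1 := by
  unfold sg
  refine Finset.prod_induction _ (fun x : ℝ => x = 1 ∨ x = -1) ?_ (Or.inl rfl) ?_
  · rintro a b (rfl | rfl) (rfl | rfl) <;> simp
  · intro a _
    split_ifs <;> simp

theorem sum_zero {m : ℕ} (l : Fin m × Bool → ℝ) (t : Fin m → ℝ) (s₀ y₀ : ℝ) (i : Fin m)
    (F : ℝ → ℝ) : ∑ ε : E m, sg ε * ((y₀ + ss l ε) *
      F ((s₀ + ss (fun a => l a * t a.1) ε) - t i * (y₀ + ss l ε))) = 0 := by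
  set g : E m → ℝ := fun ε => (s₀ + ss (fun a => l a * t a.1) ε) - t i * (y₀ + ss l ε) with hg
  have hgf : ∀ b ε, g (flip (i, b) ε) = g ε := by
    intro b ε
    simp only [hg]
    rw [ss_flip, ss_flip]
    split_ifs <;> ring
  set D : E m → ℝ := fun ε => if ε (i, false) = true then l (i, false) else -l (i, false) with hD
  have hDf : ∀ ε, D (flip (i, true) ε) = D ε := by
    intro ε
    simp only [hD]
    rw [flip_ne _ _ (by simp)]
  have h1 := sum_flip (i, false) (fun ε => sg ε * ((y₀ + ss l ε) * F (g ε)))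
  have h2 := sum_flip (i, true) (fun ε => sg ε * (D ε * F (g ε)))
  have h3 : ∑ ε : E m, (sg ε * ((y₀ + ss l ε) * F (g ε)) +
      sg (flip (i, false) ε) * ((y₀ + ss l (flip (i, false) ε)) * F (g (flip (i, false) ε)))) =
      ∑ ε : E m, sg ε * (D ε * F (g ε)) := by
    refine Finset.sum_congr rfl fun ε _ => ?_
    rw [sg_flip, ss_flip, hgf]
    simp only [hD]
    split_ifs <;> ring
  have h4 : ∑ ε : E m, sg (flip (i, true) ε) *
      (D (flip (i, true) ε) * F (g (flip (i, true) ε))) = -∑ ε : E m, sg ε * (D ε * F (g ε)) := by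
    rw [← Finset.sum_neg_distrib]
    refine Finset.sum_congr rfl fun ε _ => ?_
    rw [sg_flip, hgf, hDf]
    ring
  rw [Finset.sum_add_distrib] at h3
  have h5 : ∑ ε : E m, sg ε * ((y₀ + ss l ε) * F (g ε)) = 0 := by linarith
  exact h5

end Pool.Agent.XR
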