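import Mathlib
import Pool.Agent.XR.Defs

/-! # X-rays: the frontier is a simple closed curve -/

noncomputable section

namespace Pool.Agent.XR

open MeasureTheory

open scoped ENNReal

namespace CURVE

/-- slope -/
def sl (z : V) : ℝ := z 0 / z 1

theorem cr_eq {u w : V} (hu : 0 < u 1) (hw : 0 < w 1) : cr u w = u 1 * w 1 * (sl w - sl u) := by
  unfold cr sl
  field_simp

theorem cr_pos {u w : V} (hu : 0 < u 1) (hw : 0 < w 1) : 0 < cr u w ↔ sl u < sl w := by
  rw [cr_eq hu hw, mul_pos_iff_of_pos_left (mul_pos hu hw), sub_pos]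

theorem cr_nonneg {u w : V} (hu : 0 < u 1) (hw : 0 < w 1) : 0 ≤ cr u w ↔ sl u ≤ sl w := by
  rw [cr_eq hu hw, mul_nonneg_iff_of_pos_left (mul_pos hu hw), sub_nonneg]

/-- a point of a segment in the upper half plane -/
theorem seg_pos {u w z : V} (hu : 0 < u 1) (hw : 0 < w 1) (hz : z ∈ segment ℝ u w) : 0 < z 1 := by
  obtain ⟨a, b, ha, hb, hab, rfl⟩ := hz
  change 0 < a * u 1 + b * w 1
  rcases eq_or_lt_of_le ha with h | h
  · have hb1 : b = 1 := by linarith
    rw [← h, hb1]
    linarith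
  · have := mul_pos h hu
    have := mul_nonneg hb hw.le
    linarith

theorem seg_sl {u w z : V} (hu : 0 < u 1) (hw : 0 < w 1) (h : sl u ≤ sl w) (hz : z ∈ segment ℝ u w) :
    sl u ≤ sl z ∧ sl z ≤ sl w := by
  have hz1 := seg_pos hu hw hz
  obtain ⟨a, b, ha, hb, hab, rfl⟩ := hz
  have hcr := (cr_nonneg hu hw).2 h
  constructor
  · rw [← cr_nonneg hu hz1]
    have : cr u (a • u + b • w) = b * cr u w := by
      unfold cr
      simp only [PiLp.add_apply, PiLp.smul_apply, smul_eq_mul]
      ring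
    rw [this]
    exact mul_nonneg hb hcr
  · rw [← cr_nonneg hz1 hw]
    have : cr (a • u + b • w) w = a * cr u w := by
      unfold cr
      simp only [PiLp.add_apply, PiLp.smul_apply, smul_eq_mul]
      ring
    rw [this]
    exact mul_nonneg ha hcr

theorem seg_right {u w z : V} (hu : 0 < u 1) (hw : 0 < w 1) (h : sl u < sl w) (hz : z ∈ segment ℝ u w)
    (hs : sl z = sl w) : z = w := by
  have hz1 := seg_pos hu hw hz
  obtain ⟨a, b, ha, hb, hab, rfl⟩ := hz
  have hcr := (cr_pos hu hw).2 h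
  have h1 : cr (a • u + b • w) w = a * cr u w := by
    unfold cr
    simp only [PiLp.add_apply, PiLp.smul_apply, smul_eq_mul]
    ring
  rw [cr_eq hz1 hw, hs, sub_self, mul_zero] at h1
  have ha0 : a = 0 := by
    rcases mul_eq_zero.1 h1.symm with h | h
    · exact h
    · exact absurd h hcr.ne'
  have hb1 : b = 1 := by linarith
  rw [ha0, hb1, zero_smul, one_smul, zero_add]

theorem seg_left {u w z : V} (hu : 0 < u 1) (hw : 0 < w 1) (h : sl u < sl w) (hz : z ∈ segment ℝ u w)
    (hs : sl z = sl u) : z = u := by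
  have hz1 := seg_pos hu hw hz
  obtain ⟨a, b, ha, hb, hab, rfl⟩ := hz
  have hcr := (cr_pos hu hw).2 h
  have h1 : cr u (a • u + b • w) = b * cr u w := by
    unfold cr
    simp only [PiLp.add_apply, PiLp.smul_apply, smul_eq_mul]
    ring
  rw [cr_eq hu hz1, hs, sub_self, mul_zero] at h1
  have hb0 : b = 0 := by
    rcases mul_eq_zero.1 h1.symm with h | h
    · exact h
    · exact absurd h hcr.ne'
  have ha1 : a = 1 := by linarith
  rw [ha1, hb0, zero_smul, one_smul, add_zero]

/-- points of a radial segment -/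
theorem rad {u z : V} (hu : 0 < u 1) (hz : z ∈ segment ℝ u 0) (hz0 : 0 < z 1) : sl z = sl u := by
  obtain ⟨a, b, ha, hb, hab, rfl⟩ := hz
  rw [smul_zero, add_zero] at hz0 ⊢
  change 0 < a * u 1 at hz0
  have ha0 : a ≠ 0 := by
    rintro rfl
    rw [zero_mul] at hz0
    exact lt_irrefl _ hz0
  unfold sl
  change a * u 0 / (a * u 1) = u 0 / u 1
  rw [mul_div_mul_left _ _ ha0]

theorem rad_zero {u z : V} (hu : 0 < u 1) (hz : z ∈ segment ℝ u 0) : z = 0 ∨ 0 < z 1 := by
  obtain ⟨a, b, ha, hb, hab, rfl⟩ := hz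
  rw [smul_zero, add_zero]
  rcases eq_or_lt_of_le ha with h | h
  · left
    rw [← h, zero_smul]
  · right
    exact mul_pos h hu

section chain

variable {n : ℕ} {v : ℕ → V} (h : Chain n v)

include h

theorem step {k : ℕ} (hk : k < n) : sl (v k) ≤ sl (v (k + 1)) :=
  (cr_nonneg (h.pos k hk.le) (h.pos (k + 1) hk)).1 (h.mono k hk)

theorem le_of_le {i j : ℕ} (hij : i ≤ j) (hj : j ≤ n) : sl (v i) ≤ sl (v j) := by
  induction j, hij using Nat.le_induction with
  | base => exact le_rfl
  | succ j hij ih => exact (ih (by omega)).trans (step h (by omega))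

theorem alt {k : ℕ} (hk : k + 1 < n) : sl (v k) < sl (v (k + 1)) ∨ sl (v (k + 1)) < sl (v (k + 2)) := by
  rcases h.alt k hk with h1 | h1
  · exact Or.inl ((cr_pos (h.pos k (by omega)) (h.pos (k + 1) (by omega))).1 h1)
  · exact Or.inr ((cr_pos (h.pos (k + 1) (by omega)) (h.pos (k + 2) (by omega))).1 h1)

theorem lt_of_two {i j : ℕ} (hij : i + 2 ≤ j) (hj : j ≤ n) : sl (v i) < sl (v j) := by
  have h1 := step h (k := i) (by omega)
  have h2 := step h (k := i + 1) (by omega)
  have h3 := le_of_le h hij hj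
  rcases alt h (k := i) (by omega) with h4 | h4
  · exact lt_of_lt_of_le h4 (h2.trans h3)
  · exact lt_of_le_of_lt h1 (lt_of_lt_of_le h4 h3)

theorem first : sl (v 0) < sl (v 1) :=
  (cr_pos (h.pos 0 (Nat.zero_le _)) (h.pos 1 h.one_le)).1 h.first

theorem last : sl (v (n - 1)) < sl (v n) :=
  (cr_pos (h.pos (n - 1) (by omega)) (h.pos n le_rfl)).1 h.last

theorem zero_lt {j : ℕ} (h1 : 1 ≤ j) (hj : j ≤ n) : sl (v 0) < sl (v j) :=
  lt_of_lt_of_le (first h) (le_of_le h h1 hj)

theorem lt_last {i : ℕ} (hi : i < n) : sl (v i) < sl (v n) :=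
  lt_of_le_of_lt (le_of_le h (by omega : i ≤ n - 1) (by omega)) (last h)

theorem ne_of_lt {i j : ℕ} (hij : i < j) (hj : j ≤ n) : v i ≠ v j := by
  rcases Nat.eq_or_lt_of_le (Nat.succ_le_of_lt hij) with h1 | h1
  · rw [← h1]
    exact h.ne i (by omega)
  · intro he
    have := lt_of_two h (i := i) (j := j) h1 hj
    rw [he] at this
    exact lt_irrefl _ this

/-- two edges of the chain -/
theorem inter_edges {i j : ℕ} (hij : i < j) (hj : j < n) {z : V} (h1 : z ∈ segment ℝ (v i) (v (i + 1)))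
    (h2 : z ∈ segment ℝ (v j) (v (j + 1))) : j = i + 1 ∧ z = v (i + 1) := by
  have pi := h.pos i (by omega)
  have pi1 := h.pos (i + 1) (by omega)
  have pj := h.pos j (by omega)
  have pj1 := h.pos (j + 1) (by omega)
  have s1 := seg_sl pi pi1 (step h (by omega)) h1
  have s2 := seg_sl pj pj1 (step h (by omega)) h2
  have s3 : sl (v (i + 1)) ≤ sl (v j) := le_of_le h (by omega) (by omega)
  have e1 : sl z = sl (v (i + 1)) := le_antisymm s1.2 (s3.trans s2.1)
  have e2 : sl z = sl (v j) := le_antisymm (s1.2.trans s3) s2.1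
  have hj2 : j ≤ i + 2 := by
    by_contra hc
    have := lt_of_two h (i := i + 1) (j := j) (by omega) (by omega)
    rw [← e1, ← e2] at this
    exact lt_irrefl _ this
  rcases (by omega : j = i + 1 ∨ j = i + 2) with rfl | rfl
  · refine ⟨rfl, ?_⟩
    rcases alt h (k := i) (by omega) with h4 | h4
    · exact seg_right pi pi1 h4 h1 e1
    · exact seg_left pj pj1 h4 h2 e2
  · exfalso
    have e3 : sl (v (i + 1)) = sl (v (i + 2)) := by rw [← e1, ← e2]
    have l1 : sl (v i) < sl (v (i + 1)) := by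
      rcases alt h (k := i) (by omega) with h4 | h4
      · exact h4
      · exact absurd e3 h4.ne
    have l2 : sl (v (i + 2)) < sl (v (i + 3)) := by
      rcases alt h (k := i + 1) (by omega) with h4 | h4
      · exact absurd e3 h4.ne
      · exact h4
    have z1 := seg_right pi pi1 l1 h1 e1
    have z2 := seg_left pj pj1 l2 h2 e2
    exact h.ne (i + 1) (by omega) (z1.symm.trans z2)

theorem inter_last {i : ℕ} (hi : i < n) {z : V} (h1 : z ∈ segment ℝ (v i) (v (i + 1)))
    (h2 : z ∈ segment ℝ (v n) 0) : i + 1 = n ∧ z = v n := by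
  have pi := h.pos i (by omega)
  have pi1 := h.pos (i + 1) (by omega)
  have pn := h.pos n le_rfl
  have hz1 := seg_pos pi pi1 h1
  have s1 := seg_sl pi pi1 (step h hi) h1
  have e2 := rad pn h2 hz1
  have hin : i + 1 = n := by
    by_contra hc
    have := lt_last h (i := i + 1) (by omega)
    rw [← e2] at this
    exact absurd s1.2 (not_le.2 this)
  refine ⟨hin, ?_⟩
  have e3 : sl z = sl (v (i + 1)) := by rw [e2, hin]
  have l1 : sl (v i) < sl (v (i + 1)) := by
    rw [hin]
    exact lt_last h hi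
  rw [seg_right pi pi1 l1 h1 e3, hin]

theorem inter_first {i : ℕ} (hi : i < n) {z : V} (h1 : z ∈ segment ℝ (v i) (v (i + 1)))
    (h2 : z ∈ segment ℝ (v 0) 0) : i = 0 ∧ z = v 0 := by
  have pi := h.pos i (by omega)
  have pi1 := h.pos (i + 1) (by omega)
  have p0 := h.pos 0 (Nat.zero_le _)
  have hz1 := seg_pos pi pi1 h1
  have s1 := seg_sl pi pi1 (step h hi) h1
  have e2 := rad p0 h2 hz1
  have hin : i = 0 := by
    by_contra hc
    have := zero_lt h (j := i) (by omega) (by omega)
    rw [← e2] at this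
    exact absurd s1.1 (not_le.2 this)
  subst hin
  exact ⟨rfl, seg_left pi pi1 (first h) h1 e2⟩

theorem inter_zero {z : V} (h1 : z ∈ segment ℝ (v n) 0) (h2 : z ∈ segment ℝ (v 0) 0) : z = 0 := by
  have pn := h.pos n le_rfl
  have p0 := h.pos 0 (Nat.zero_le _)
  rcases rad_zero pn h1 with h3 | h3
  · exact h3
  · exfalso
    have e1 := rad pn h1 h3
    have e2 := rad p0 h2 h3
    have := zero_lt h (j := n) h.one_le le_rfl
    rw [← e1, ← e2] at this
    exact lt_irrefl _ this

end chain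

/-- the closed vertex sequence -/
def wv (n : ℕ) (v : ℕ → V) (i : ℕ) : V := if i % (n + 2) ≤ n then v (i % (n + 2)) else 0

theorem wv_le {n : ℕ} {v : ℕ → V} {i : ℕ} (hi : i ≤ n) : wv n v i = v i := by
  unfold wv
  rw [Nat.mod_eq_of_lt (by omega), if_pos hi]

theorem wv_last {n : ℕ} {v : ℕ → V} : wv n v (n + 1) = 0 := by
  unfold wv
  rw [Nat.mod_eq_of_lt (by omega), if_neg (by omega)]

theorem wv_close {n : ℕ} {v : ℕ → V} : wv n v (n + 2) = v 0 := by
  unfold wv
  rw [Nat.mod_self, if_pos (Nat.zero_le _)]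

theorem wv_inter {n : ℕ} {v : ℕ → V} (h : Chain n v) {i j : ℕ} (hij : i < j) (hj : j < n + 2) :
    segment ℝ (wv n v i) (wv n v (i + 1)) ∩ segment ℝ (wv n v j) (wv n v (j + 1)) ⊆
      ({wv n v i, wv n v (i + 1)} : Set V) ∩ {wv n v j, wv n v (j + 1)} := by
  rintro z ⟨h1, h2⟩
  rcases (by omega : j < n ∨ j = n ∨ j = n + 1) with hjn | hjn | hjn
  · rw [wv_le (by omega), wv_le (by omega)] at h1 h2
    obtain ⟨rfl, rfl⟩ := inter_edges h hij hjn h1 h2
    rw [wv_le (by omega : i ≤ n), wv_le (by omega : i + 1 ≤ n), wv_le (by omega : i + 1 + 1 ≤ n)]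
    simp
  · subst hjn
    rw [wv_le (by omega), wv_le (by omega)] at h1
    rw [wv_le le_rfl, wv_last] at h2
    obtain ⟨h3, rfl⟩ := inter_last h hij h1 h2
    rw [wv_le (by omega : i ≤ j), wv_le (by omega : i + 1 ≤ j), wv_le (le_refl j), wv_last, h3]
    simp
  · subst hjn
    rw [wv_last, wv_close, segment_symm] at h2
    rcases (by omega : i < n ∨ i = n) with hin | hin
    · rw [wv_le (by omega), wv_le (by omega)] at h1
      obtain ⟨rfl, rfl⟩ := inter_first h hin h1 h2
      rw [wv_le (by omega : 0 ≤ n), wv_last, wv_close]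
      simp
    · subst hin
      rw [wv_le le_rfl, wv_last] at h1
      obtain rfl := inter_zero h h1 h2
      rw [wv_last]
      simp

theorem wv_ne {n : ℕ} {v : ℕ → V} (h : Chain n v) {i j : ℕ} (hij : i < j) (hj : j < n + 2) :
    wv n v i ≠ wv n v j := by
  rcases (by omega : j ≤ n ∨ j = n + 1) with hjn | hjn
  · rw [wv_le (by omega), wv_le hjn]
    exact ne_of_lt h hij hjn
  · subst hjn
    rw [wv_le (by omega), wv_last]
    intro h0
    have := h.pos i (by omega)
    rw [h0] at this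
    exact lt_irrefl _ this

end CURVE

open CURVE in
theorem isCurve_of_frontier {n : ℕ} {v : ℕ → V} (h : Chain n v) {P : Set V}
    (hP : frontier P = (⋃ i ∈ Finset.range n, segment ℝ (v i) (v (i + 1))) ∪
      (segment ℝ (v n) 0 ∪ segment ℝ 0 (v 0))) : IsCurve P := by
  refine ⟨n + 2, wv n v, ?_, ?_, ?_, ?_, ?_⟩
  · have := h.one_le
    omega
  · intro i
    unfold wv
    rw [Nat.add_mod_right]
  · intro i hi j hj hij
    rcases Nat.lt_or_gt_of_ne hij with h1 | h1
    · exact wv_ne h h1 hj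
    · exact (wv_ne h h1 hi).symm
  · intro i hi j hj hij
    rcases Nat.lt_or_gt_of_ne hij with h1 | h1
    · exact wv_inter h h1 hj
    · rw [Set.inter_comm, Set.inter_comm ({wv n v i, wv n v (i + 1)} : Set V)]
      exact wv_inter h h1 hi
  · rw [hP, Finset.range_add_one, Finset.set_biUnion_insert, Finset.range_add_one,
      Finset.set_biUnion_insert, wv_last, wv_close, wv_le le_rfl]
    have h1 : (⋃ i ∈ Finset.range n, segment ℝ (wv n v i) (wv n v (i + 1))) =
        ⋃ i ∈ Finset.range n, segment ℝ (v i) (v (i + 1)) := by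
      refine Set.iUnion₂_congr fun i hi => ?_
      have := Finset.mem_range.1 hi
      rw [wv_le (by omega), wv_le (by omega)]
    rw [h1]
    ext z
    simp only [Set.mem_union]
    tauto

end Pool.Agent.XR
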