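import Mathlib
import Pool.Agent.XR.Defs

/-! # Frames -/

noncomputable section

namespace Pool.Agent.XR

namespace FRAME

lemma one_pos (r : ℕ) : (0 : ℝ) < 1 + (r : ℝ) ^ 2 := by positivity

lemma W_zero (r : ℕ) (a h : ℝ) : W r a h 0 = h * (a + r) / (1 + r ^ 2) := by
  simp [W]

lemma W_one (r : ℕ) (a h : ℝ) : W r a h 1 = h * (1 - r * a) / (1 + r ^ 2) := by
  simp [W]

lemma al_add (r : ℕ) (z w : V) : al r (z + w) = al r z + al r w := by
  simp only [al, PiLp.add_apply]; ring

lemma be_add (r : ℕ) (z w : V) : be r (z + w) = be r z + be r w := by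
  simp only [be, PiLp.add_apply]; ring

lemma al_smul (r : ℕ) (c : ℝ) (z : V) : al r (c • z) = c * al r z := by
  simp only [al, PiLp.smul_apply, smul_eq_mul]; ring

lemma be_smul (r : ℕ) (c : ℝ) (z : V) : be r (c • z) = c * be r z := by
  simp only [be, PiLp.smul_apply, smul_eq_mul]; ring

/-- a point is determined by its coordinates in a frame -/
lemma ext_frame (r : ℕ) {z w : V} (h1 : al r z = al r w) (h2 : be r z = be r w) : z = w := by
  have hp := one_pos r
  simp only [al, be] at h1 h2
  have e0 : z 0 = w 0 := by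
    have : (1 + (r : ℝ) ^ 2) * (z 0 - w 0) = 0 := by linear_combination h1 + r * h2
    rcases mul_eq_zero.1 this with h | h
    · exact absurd h hp.ne'
    · linarith
  have e1 : z 1 = w 1 := by
    have : (1 + (r : ℝ) ^ 2) * (z 1 - w 1) = 0 := by linear_combination h2 - r * h1
    rcases mul_eq_zero.1 this with h | h
    · exact absurd h hp.ne'
    · linarith
  ext i
  fin_cases i
  · exact e0
  · exact e1

end FRAME

open FRAME

theorem al_W (r : ℕ) (a h : ℝ) : al r (W r a h) = a * h := by
  have hp := (one_pos r).ne'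
  rw [al, W_zero, W_one]
  field_simp
  ring

theorem be_W (r : ℕ) (a h : ℝ) : be r (W r a h) = h := by
  have hp := (one_pos r).ne'
  rw [be, W_zero, W_one]
  field_simp
  ring

theorem cr_W (r : ℕ) (a h b k : ℝ) :
    cr (W r a h) (W r b k) = h * k * (b - a) / (1 + (r : ℝ) ^ 2) := by
  have hp := (one_pos r).ne'
  rw [cr, W_zero, W_one, W_zero, W_one]
  field_simp
  ring

theorem mem_tri_W {r : ℕ} {a b h : ℝ} (hab : a < b) (hh : 0 < h) (z : V) :
    z ∈ tri (W r a h) (W r b h) ↔
      a * be r z ≤ al r z ∧ al r z ≤ b * be r z ∧ be r z ≤ h := by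
  constructor
  · rintro ⟨α, β, hα, hβ, hs, rfl⟩
    rw [al_add, be_add, al_smul, al_smul, be_smul, be_smul, al_W, al_W, be_W, be_W]
    have h1 : 0 ≤ β * h * (b - a) := by
      have := hab.le
      exact mul_nonneg (mul_nonneg hβ hh.le) (by linarith)
    have h2 : 0 ≤ α * h * (b - a) := by
      have := hab.le
      exact mul_nonneg (mul_nonneg hα hh.le) (by linarith)
    refine ⟨by nlinarith, by nlinarith, ?_⟩
    have : (α + β) * h ≤ 1 * h := mul_le_mul_of_nonneg_right hs hh.le
    linarith
  · rintro ⟨h1, h2, h3⟩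
    have hd : 0 < (b - a) * h := mul_pos (by linarith) hh
    refine ⟨(b * be r z - al r z) / ((b - a) * h), (al r z - a * be r z) / ((b - a) * h),
      div_nonneg (by linarith) hd.le, div_nonneg (by linarith) hd.le, ?_, ?_⟩
    · rw [← add_div, div_le_one hd]
      nlinarith
    · have hba : b - a ≠ 0 := by linarith
      have hh' := hh.ne'
      apply ext_frame r
      · rw [al_add, al_smul, al_smul, al_W, al_W]
        field_simp
        ring
      · rw [be_add, be_smul, be_smul, be_W, be_W]
        field_simp
        ring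

theorem mem_tri_W_radial {r : ℕ} {a h k : ℝ} (hh : 0 < h) (hk : 0 < k) (z : V) :
    z ∈ tri (W r a h) (W r a k) ↔
      al r z = a * be r z ∧ 0 ≤ be r z ∧ be r z ≤ max h k := by
  constructor
  · rintro ⟨α, β, hα, hβ, hs, rfl⟩
    rw [al_add, be_add, al_smul, al_smul, be_smul, be_smul, al_W, al_W, be_W, be_W]
    refine ⟨by ring, by positivity, ?_⟩
    have h1 : α * h ≤ α * max h k := mul_le_mul_of_nonneg_left (le_max_left _ _) hα
    have h2 : β * k ≤ β * max h k := mul_le_mul_of_nonneg_left (le_max_right _ _) hβ
    have h3 : (α + β) * max h k ≤ 1 * max h k :=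
      mul_le_mul_of_nonneg_right hs (le_max_of_le_left hh.le)
    linarith
  · rintro ⟨h1, h2, h3⟩
    rcases le_total h k with hle | hle
    · rw [max_eq_right hle] at h3
      refine ⟨0, be r z / k, le_rfl, div_nonneg h2 hk.le, ?_, ?_⟩
      · rw [zero_add, div_le_one hk]; exact h3
      · have hk' := hk.ne'
        apply ext_frame r
        · rw [al_add, al_smul, al_smul, al_W, al_W, h1]
          field_simp
          ring
        · rw [be_add, be_smul, be_smul, be_W, be_W]
          field_simp
          ring
    · rw [max_eq_left hle] at h3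
      refine ⟨be r z / h, 0, div_nonneg h2 hh.le, le_rfl, ?_, ?_⟩
      · rw [add_zero, div_le_one hh]; exact h3
      · have hh' := hh.ne'
        apply ext_frame r
        · rw [al_add, al_smul, al_smul, al_W, al_W, h1]
          field_simp
          ring
        · rw [be_add, be_smul, be_smul, be_W, be_W]
          field_simp
          ring

end Pool.Agent.XR
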