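import Mathlib
import Pool.Agent.XR.Defs
import Pool.Agent.XR.FRAME

/-! # The cells form a chain -/

noncomputable section

namespace Pool.Agent.XR

namespace ORDER

open FRAME

lemma cr_self (u : V) : cr u u = 0 := by rw [cr]; ring

lemma ne_of_cr {u w : V} (h : 0 < cr u w) : u ≠ w := by
  rintro rfl
  rw [cr_self] at h
  exact lt_irrefl _ h

/-- between two frames -/
lemma cr_next (r : ℕ) (a b h k : ℝ) :
    cr (W r b h) (W (r + 1) a k) =
      h * k * ((a - b) * (1 + r * (r + 1)) + 1 + a * b) /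
        ((1 + (r : ℝ) ^ 2) * (1 + ((r : ℝ) + 1) ^ 2)) := by
  have h1 : (1 : ℝ) + (r : ℝ) ^ 2 ≠ 0 := by positivity
  have h2 : (1 : ℝ) + ((r : ℝ) + 1) ^ 2 ≠ 0 := by positivity
  rw [cr, W_zero, W_one, W_zero, W_one]
  push_cast
  field_simp
  ring

variable {C : Cell}

lemma pos_lo (h : C.Ok) (i : ℕ) : C.a ≤ C.pos i := by
  have h1 := h.hap
  have h2 := h.hpq
  have h3 := h.hqb
  unfold Cell.pos
  split_ifs <;> linarith

lemma pos_hi (h : C.Ok) (i : ℕ) : C.pos i ≤ C.b := by
  have h1 := h.hap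
  have h2 := h.hpq
  have h3 := h.hqb
  unfold Cell.pos
  split_ifs <;> linarith

lemma ht_pos (h : C.Ok) (i : ℕ) : 0 < C.ht i := by
  have h1 := h.hh
  have h2 := h.hk
  unfold Cell.ht
  split_ifs <;> assumption

/-- strictly increasing, or a radial step -/
lemma pos_step (h : C.Ok) {i : ℕ} (hi : i < 5) :
    C.pos i < C.pos (i + 1) ∨
      ((i = 1 ∨ i = 3) ∧ C.pos i = C.pos (i + 1) ∧ C.ht i ≠ C.ht (i + 1)) := by
  have h1 := h.hap
  have h2 := h.hpq
  have h3 := h.hqb
  have h4 := h.hne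
  by_cases hmd : C.md = true
  · interval_cases i <;> simp [Cell.pos, Cell.ht, hmd, h1, h2, h3, h4, h4.symm]
  · interval_cases i <;> left <;> simp [Cell.pos, hmd] <;> linarith

lemma rho_small {R Nc : ℕ} {ρ : ℝ} {C : ℕ → Cell} (h : CellsOk R Nc ρ C) : ρ ≤ 1 / 8 := by
  have h1 := h.hρ'
  have h2 : (1 : ℝ) ≤ R := by exact_mod_cast h.hR
  have h3 := h.hρ
  have h4 : (1 : ℝ) ≤ (R : ℝ) ^ 2 := by nlinarith
  nlinarith

end ORDER

open ORDER FRAME

theorem chain_cells {R Nc : ℕ} {ρ : ℝ} {C : ℕ → Cell} (h : CellsOk R Nc ρ C) :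
    Chain (6 * (R * Nc) - 1) (vtx Nc C) := by
  have hM : 1 ≤ R * Nc := Nat.one_le_iff_ne_zero.2
    (Nat.mul_ne_zero (Nat.one_le_iff_ne_zero.1 h.hR) (Nat.one_le_iff_ne_zero.1 h.hN))
  have hρ8 := rho_small h
  have hρ0 := h.hρ
  have hN0 : 0 < Nc := h.hN
  -- the cell of an index
  have hc : ∀ k, k ≤ 6 * (R * Nc) - 1 → k / 6 < R * Nc := fun k hk => by omega
  have hr : ∀ c, c < R * Nc → c / Nc < R := fun c hc => by
    rw [Nat.div_lt_iff_lt_mul hN0]; exact hc
  have hposlo : ∀ c, c < R * Nc → ∀ i, -ρ ≤ (C c).pos i := fun c hc i =>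
    (h.lo c hc).trans (pos_lo (h.ok c hc) i)
  have hposhi : ∀ c, c < R * Nc → ∀ i, (C c).pos i ≤ ρ := fun c hc i =>
    (pos_hi (h.ok c hc) i).trans (h.hi c hc)
  -- the steps
  have step : ∀ k, k < 6 * (R * Nc) - 1 →
      0 < cr (vtx Nc C k) (vtx Nc C (k + 1)) ∨
        ((k % 6 = 1 ∨ k % 6 = 3) ∧ cr (vtx Nc C k) (vtx Nc C (k + 1)) = 0 ∧
          vtx Nc C k ≠ vtx Nc C (k + 1)) := by
    intro k hk
    have hck := hc k (by omega)
    by_cases h5 : k % 6 < 5
    · have e1 : (k + 1) / 6 = k / 6 := by omega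
      have e2 : (k + 1) % 6 = k % 6 + 1 := by omega
      have hok := h.ok _ hck
      rcases pos_step hok h5 with hlt | ⟨hi, heq, hne⟩
      · left
        rw [vtx, vtx, e1, e2, cr_W]
        have g1 := ht_pos hok (k % 6)
        have g2 := ht_pos hok (k % 6 + 1)
        have g3 : 0 < (C (k / 6)).pos (k % 6 + 1) - (C (k / 6)).pos (k % 6) := by linarith
        exact div_pos (mul_pos (mul_pos g1 g2) g3) (one_pos _)
      · right
        refine ⟨hi, ?_, ?_⟩
        · rw [vtx, vtx, e1, e2, cr_W, heq]; simp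
        · intro hv
          have := congrArg (be (k / 6 / Nc)) hv
          rw [vtx, vtx, e1, e2, be_W, be_W] at this
          exact hne this
    · left
      have e1 : (k + 1) / 6 = k / 6 + 1 := by omega
      have e2 : (k + 1) % 6 = 0 := by omega
      have e3 : k % 6 = 5 := by omega
      have hck' : k / 6 + 1 < R * Nc := by
        have := hc (k + 1) (by omega)
        omega
      have hok := h.ok _ hck
      have hok' := h.ok _ hck'
      have g1 := ht_pos hok 5
      have g2 := ht_pos hok' 0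
      rw [vtx, vtx, e1, e2, e3]
      have hb : (C (k / 6)).pos 5 = (C (k / 6)).b := by simp [Cell.pos]
      have ha : (C (k / 6 + 1)).pos 0 = (C (k / 6 + 1)).a := by simp [Cell.pos]
      by_cases hfr : k / 6 / Nc = (k / 6 + 1) / Nc
      · rw [← hfr, cr_W]
        have g3 := h.lt _ hck' hfr
        have g4 : 0 < (C (k / 6 + 1)).pos 0 - (C (k / 6)).pos 5 := by rw [hb, ha]; linarith
        exact div_pos (mul_pos (mul_pos g1 g2) g4) (one_pos _)
      · have hfr' : (k / 6 + 1) / Nc = k / 6 / Nc + 1 := by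
          rw [Nat.succ_div]
          rw [Nat.succ_div] at hfr
          split_ifs at hfr ⊢ with hd
          · rfl
          · exact absurd (by simp) hfr
        have hr1 : k / 6 / Nc + 1 < R := by
          rw [← hfr']; exact hr _ hck'
        rw [hfr', cr_next]
        have q1 : -ρ ≤ (C (k / 6)).pos 5 := hposlo _ hck 5
        have q2 : (C (k / 6)).pos 5 ≤ ρ := hposhi _ hck 5
        have q3 : -ρ ≤ (C (k / 6 + 1)).pos 0 := hposlo _ hck' 0
        have q4 : (C (k / 6 + 1)).pos 0 ≤ ρ := hposhi _ hck' 0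
        set x := (C (k / 6)).pos 5
        set y := (C (k / 6 + 1)).pos 0
        set r := k / 6 / Nc
        have hrR : (r : ℝ) + 1 ≤ R := by exact_mod_cast hr1.le
        have hr0 : (0 : ℝ) ≤ r := Nat.cast_nonneg _
        have hRR : (1 : ℝ) + r * (r + 1) ≤ 1 + (R : ℝ) ^ 2 := by nlinarith
        have hbig := h.hρ'
        have hp : (0 : ℝ) ≤ 1 + r * (r + 1) := by positivity
        have b1 : -(2 * ρ * (1 + r * (r + 1))) ≤ (y - x) * (1 + r * (r + 1)) := by
          have : -(2 * ρ) ≤ y - x := by linarith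
          have := mul_le_mul_of_nonneg_right this hp
          linarith
        have b2 : 2 * ρ * (1 + r * (r + 1)) ≤ 1 / 2 := by
          have := mul_le_mul_of_nonneg_left hRR hρ0.le
          linarith
        have b3 : -(1 / 64) ≤ y * x := by
          have hx : |x| ≤ 1 / 8 := abs_le.2 ⟨by linarith, by linarith⟩
          have hy : |y| ≤ 1 / 8 := abs_le.2 ⟨by linarith, by linarith⟩
          have hxy : |y * x| ≤ 1 / 64 := by
            rw [abs_mul]
            have := mul_le_mul hy hx (abs_nonneg _) (by norm_num)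
            linarith
          linarith [neg_abs_le (y * x)]
        have b4 : 0 < (y - x) * (1 + r * (r + 1)) + 1 + y * x := by linarith
        exact div_pos (mul_pos (mul_pos g1 g2) b4) (by positivity)
  refine ⟨by omega, ?_, ?_, ?_, ?_, ?_, ?_⟩
  · intro k hk
    have hck := hc k hk
    have hok := h.ok _ hck
    rw [vtx, W_one]
    have g1 := ht_pos hok (k % 6)
    have q1 := hposlo _ hck (k % 6)
    have q2 := hposhi _ hck (k % 6)
    have hrR : ((k / 6 / Nc : ℕ) : ℝ) ≤ R := by exact_mod_cast (hr _ hck).le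
    have hr0 : (0 : ℝ) ≤ ((k / 6 / Nc : ℕ) : ℝ) := Nat.cast_nonneg _
    have hbig := h.hρ'
    have b1 : ((k / 6 / Nc : ℕ) : ℝ) * (C (k / 6)).pos (k % 6) ≤ 1 / 4 := by
      have c1 : ((k / 6 / Nc : ℕ) : ℝ) * (C (k / 6)).pos (k % 6) ≤
          ((k / 6 / Nc : ℕ) : ℝ) * ρ := mul_le_mul_of_nonneg_left q2 hr0
      have c2 : ((k / 6 / Nc : ℕ) : ℝ) * ρ ≤ R * ρ := mul_le_mul_of_nonneg_right hrR hρ0.le
      have c3 : (R : ℝ) ≤ 1 + (R : ℝ) ^ 2 := by nlinarith [sq_nonneg ((R : ℝ) - 1)]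
      have c4 : (R : ℝ) * ρ ≤ (1 + (R : ℝ) ^ 2) * ρ := mul_le_mul_of_nonneg_right c3 hρ0.le
      linarith
    have b2 : 0 < 1 - ((k / 6 / Nc : ℕ) : ℝ) * (C (k / 6)).pos (k % 6) := by linarith
    exact div_pos (mul_pos g1 b2) (one_pos _)
  · intro k hk
    rcases step k hk with h1 | ⟨_, h1, _⟩
    · exact h1.le
    · exact h1.ge
  · intro k hk
    rcases step k hk with h1 | ⟨_, _, h1⟩
    · exact ne_of_cr h1
    · exact h1
  · intro k hk
    rcases step k (by omega) with h1 | ⟨h1, _, _⟩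
    · exact Or.inl h1
    · rcases step (k + 1) hk with h2 | ⟨h2, _, _⟩
      · exact Or.inr h2
      · omega
  · rcases step 0 (by omega) with h1 | ⟨h1, _, _⟩
    · exact h1
    · omega
  · rcases step (6 * (R * Nc) - 1 - 1) (by omega) with h1 | ⟨h1, _, _⟩
    · have e : 6 * (R * Nc) - 1 - 1 + 1 = 6 * (R * Nc) - 1 := by omega
      rw [e] at h1
      exact h1
    · omega

end Pool.Agent.XR
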