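import Mathlib
import Pool.Agent.XR.Defs
import Pool.Agent.XR.FRAME
import Pool.Agent.XR.ORDER

/-! # The difference of two cell polygons -/

noncomputable section

namespace Pool.Agent.XR

open MeasureTheory

open scoped ENNReal

namespace DIFF

theorem cr_self_smul (a b : ℝ) (u w z : V) (hz : z = a • u + b • w) :
    cr u z = b * cr u w ∧ cr z w = a * cr u w := by
  have h0 : z 0 = a * u 0 + b * w 0 := by rw [hz]; simp
  have h1 : z 1 = a * u 1 + b * w 1 := by rw [hz]; simp
  unfold cr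
  rw [h0, h1]
  constructor <;> ring

theorem cr_trans {u w z : V} (hw : 0 < w 1) (hu : 0 < u 1) (hz : 0 ≤ z 1) (h1 : 0 ≤ cr u w)
    (h2 : 0 ≤ cr w z) : 0 ≤ cr u z := by
  unfold cr at *
  -- z0 u1 w1 >= w0 z1 u1 >= u0 w1 z1
  have h3 : 0 ≤ (z 0 * u 1 - u 0 * z 1) * w 1 := by nlinarith
  by_contra h
  push Not at h
  nlinarith

theorem cr_trans' {u w z : V} (hw : 0 < w 1) (hz : 0 < z 1) (hu : 0 ≤ u 1) (h1 : 0 ≤ cr u w)
    (h2 : 0 ≤ cr w z) : 0 ≤ cr u z := by
  unfold cr at *
  have h3 : 0 ≤ (z 0 * u 1 - u 0 * z 1) * w 1 := by nlinarith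
  by_contra h
  push Not at h
  nlinarith

theorem cr_neg (u w : V) : cr u w = - cr w u := by
  unfold cr
  ring

theorem chain_mono {n : ℕ} {v : ℕ → V} (h : Chain n v) {i j : ℕ} (hij : i ≤ j) (hj : j ≤ n) :
    0 ≤ cr (v i) (v j) := by
  induction j, hij using Nat.le_induction with
  | base => unfold cr; linarith [mul_comm (v i 0) (v i 1)]
  | succ j hij ih =>
    have h1 := ih (by omega)
    exact cr_trans (h.pos j (by omega)) (h.pos i (by omega)) (h.pos (j + 1) hj).le h1
      (h.mono j (by omega))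

theorem tri_snd_nonneg {u w z : V} (hu : 0 < u 1) (hw : 0 < w 1) (hz : z ∈ tri u w) :
    0 ≤ z 1 := by
  obtain ⟨a, b, ha, hb, -, rfl⟩ := hz
  simp only [PiLp.add_apply, PiLp.smul_apply, smul_eq_mul]
  positivity

/-- only the triangles in between meet an open cone -/
theorem between {n : ℕ} {v : ℕ → V} (h : Chain n v) {i j k : ℕ} (hi : i ≤ n) (hj : j ≤ n)
    (hk : k < n) {z : V} (h1 : 0 < cr (v i) z) (h2 : 0 < cr z (v j))
    (hz : z ∈ tri (v k) (v (k + 1))) : i ≤ k ∧ k < j := by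
  have hz1 := tri_snd_nonneg (h.pos k hk.le) (h.pos (k + 1) hk) hz
  obtain ⟨a, b, ha, hb, hab, hz'⟩ := hz
  obtain ⟨e1, e2⟩ := cr_self_smul a b (v k) (v (k + 1)) z hz'
  have hm := h.mono k hk
  constructor
  · by_contra hc
    push Not at hc
    -- k + 1 ≤ i, so cr z (v i) ≥ 0
    have h3 : 0 ≤ cr z (v (k + 1)) := by rw [e2]; positivity
    have h4 := chain_mono h (i := k + 1) (j := i) hc hi
    have h5 : 0 ≤ cr z (v i) :=
      cr_trans' (h.pos (k + 1) hk) (h.pos i hi) hz1 h3 h4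
    rw [cr_neg] at h1
    linarith
  · by_contra hc
    push Not at hc
    have h3 : 0 ≤ cr (v k) z := by rw [e1]; positivity
    have h4 := chain_mono h (i := j) (j := k) hc hk.le
    have h5 : 0 ≤ cr (v j) z := cr_trans (h.pos k hk.le) (h.pos j hj) hz1 h4 h3
    rw [cr_neg] at h2
    linarith

theorem cr_W_left (r : ℕ) (a h : ℝ) (z : V) :
    cr (W r a h) z = h * (al r z - a * be r z) / (1 + (r : ℝ) ^ 2) := by
  unfold cr W al be
  have h1 : (1 + (r : ℝ) ^ 2) ≠ 0 := by positivity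
  simp
  field_simp
  ring

theorem cr_W_right (r : ℕ) (a h : ℝ) (z : V) :
    cr z (W r a h) = h * (a * be r z - al r z) / (1 + (r : ℝ) ^ 2) := by
  rw [cr_neg, cr_W_left]
  ring

section vtx

variable {Nc : ℕ} (C : ℕ → Cell) (c i : ℕ)

theorem vtx_eq (hi : i < 6) : vtx Nc C (6 * c + i) = W (c / Nc) ((C c).pos i) ((C c).ht i) := by
  unfold vtx
  have h1 : (6 * c + i) / 6 = c := by omega
  have h2 : (6 * c + i) % 6 = i := by omega
  rw [h1, h2]

theorem vtx_congr {C' : ℕ → Cell} {k : ℕ} (h : C' (k / 6) = C (k / 6)) :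
    vtx Nc C' k = vtx Nc C k := by
  unfold vtx
  rw [h]

/-- the end vertices of a cell depend on `a, b, h` only -/
theorem vtx_congr_left {C' : ℕ → Cell} (h1 : (C' c).a = (C c).a) (h2 : (C' c).h = (C c).h) :
    vtx Nc C' (6 * c) = vtx Nc C (6 * c) := by
  have e1 := vtx_eq (Nc := Nc) C c 0 (by norm_num)
  have e2 := vtx_eq (Nc := Nc) C' c 0 (by norm_num)
  rw [add_zero] at e1 e2
  rw [e1, e2]
  simp only [Cell.pos, Cell.ht, if_true, show (0 : ℕ) ≠ 2 from by norm_num,
    show (0 : ℕ) ≠ 3 from by norm_num, if_false, h1, h2]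

theorem vtx_congr_right {C' : ℕ → Cell} (h1 : (C' c).b = (C c).b) (h2 : (C' c).h = (C c).h) :
    vtx Nc C' (6 * c + 5) = vtx Nc C (6 * c + 5) := by
  rw [vtx_eq C c 5 (by norm_num), vtx_eq C' c 5 (by norm_num)]
  simp only [Cell.pos, Cell.ht, show (5 : ℕ) ≠ 0 from by norm_num, show (5 : ℕ) ≠ 1 from by norm_num,
    show (5 : ℕ) ≠ 2 from by norm_num, show (5 : ℕ) ≠ 3 from by norm_num,
    show (5 : ℕ) ≠ 4 from by norm_num, if_false, h1, h2]

end vtx

/-- the points of an unmodified cell -/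
theorem mem_cell_plain {Nc : ℕ} {C : ℕ → Cell} {c : ℕ} (hok : (C c).Ok) (hmd : (C c).md = false)
    (z : V) : (∃ i < 5, z ∈ tri (vtx Nc C (6 * c + i)) (vtx Nc C (6 * c + i + 1))) ↔
      (C c).a * be (c / Nc) z ≤ al (c / Nc) z ∧ al (c / Nc) z ≤ (C c).b * be (c / Nc) z ∧
        be (c / Nc) z ≤ (C c).h := by
  have hap := hok.hap
  have hpq := hok.hpq
  have hqb := hok.hqb
  have hh := hok.hh
  have e0 := vtx_eq (Nc := Nc) C c 0 (by norm_num)
  have e1 := vtx_eq (Nc := Nc) C c 1 (by norm_num)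
  have e2 := vtx_eq (Nc := Nc) C c 2 (by norm_num)
  have e3 := vtx_eq (Nc := Nc) C c 3 (by norm_num)
  have e4 := vtx_eq (Nc := Nc) C c 4 (by norm_num)
  have e5 := vtx_eq (Nc := Nc) C c 5 (by norm_num)
  simp only [Cell.pos, Cell.ht, hmd] at e0 e1 e2 e3 e4 e5
  norm_num at e0 e1 e2 e3 e4 e5
  have m0 := mem_tri_W (r := c / Nc) hap hh z
  have m1 := mem_tri_W (r := c / Nc) (show (C c).p < (2 * (C c).p + (C c).q) / 3 by linarith) hh z
  have m2 := mem_tri_W (r := c / Nc) (show (2 * (C c).p + (C c).q) / 3 < ((C c).p + 2 * (C c).q) / 3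
    by linarith) hh z
  have m3 := mem_tri_W (r := c / Nc) (show ((C c).p + 2 * (C c).q) / 3 < (C c).q by linarith) hh z
  have m4 := mem_tri_W (r := c / Nc) hqb hh z
  constructor
  · rintro ⟨i, hi, hz⟩
    interval_cases i
    · rw [add_zero, e0, e1, m0] at hz
      obtain ⟨z1, z2, z3⟩ := hz
      have hb : 0 ≤ be (c / Nc) z := by nlinarith
      exact ⟨z1, by nlinarith, z3⟩
    · rw [e1, e2, m1] at hz
      obtain ⟨z1, z2, z3⟩ := hz
      have hb : 0 ≤ be (c / Nc) z := by nlinarith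
      exact ⟨by nlinarith, by nlinarith, z3⟩
    · rw [e2, e3, m2] at hz
      obtain ⟨z1, z2, z3⟩ := hz
      have hb : 0 ≤ be (c / Nc) z := by nlinarith
      exact ⟨by nlinarith, by nlinarith, z3⟩
    · rw [e3, e4, m3] at hz
      obtain ⟨z1, z2, z3⟩ := hz
      have hb : 0 ≤ be (c / Nc) z := by nlinarith
      exact ⟨by nlinarith, by nlinarith, z3⟩
    · rw [e4, e5, m4] at hz
      obtain ⟨z1, z2, z3⟩ := hz
      have hb : 0 ≤ be (c / Nc) z := by nlinarith
      exact ⟨by nlinarith, by nlinarith, z3⟩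
  · rintro ⟨z1, z2, z3⟩
    by_cases h0 : al (c / Nc) z ≤ (C c).p * be (c / Nc) z
    · exact ⟨0, by norm_num, by rw [add_zero, e0, e1, m0]; exact ⟨z1, h0, z3⟩⟩
    push Not at h0
    by_cases h1 : al (c / Nc) z ≤ (2 * (C c).p + (C c).q) / 3 * be (c / Nc) z
    · exact ⟨1, by norm_num, by rw [e1, e2, m1]; exact ⟨h0.le, h1, z3⟩⟩
    push Not at h1
    by_cases h2 : al (c / Nc) z ≤ ((C c).p + 2 * (C c).q) / 3 * be (c / Nc) z
    · exact ⟨2, by norm_num, by rw [e2, e3, m2]; exact ⟨h1.le, h2, z3⟩⟩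
    push Not at h2
    by_cases h3 : al (c / Nc) z ≤ (C c).q * be (c / Nc) z
    · exact ⟨3, by norm_num, by rw [e3, e4, m3]; exact ⟨h2.le, h3, z3⟩⟩
    push Not at h3
    exact ⟨4, by norm_num, by rw [e4, e5, m4]; exact ⟨h3.le, z2, z3⟩⟩

/-- the points of a modified cell -/
theorem mem_cell_md {Nc : ℕ} {C : ℕ → Cell} {c : ℕ} (hok : (C c).Ok) (hmd : (C c).md = true)
    (z : V) (hz1 : al (c / Nc) z ≠ (C c).p * be (c / Nc) z)
    (hz2 : al (c / Nc) z ≠ (C c).q * be (c / Nc) z) :
    (∃ i < 5, z ∈ tri (vtx Nc C (6 * c + i)) (vtx Nc C (6 * c + i + 1))) ↔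
      ((C c).a * be (c / Nc) z ≤ al (c / Nc) z ∧ al (c / Nc) z ≤ (C c).b * be (c / Nc) z ∧
        be (c / Nc) z ≤ (C c).h ∧
        ¬ ((C c).p * be (c / Nc) z < al (c / Nc) z ∧ al (c / Nc) z < (C c).q * be (c / Nc) z)) ∨
      ((C c).p * be (c / Nc) z < al (c / Nc) z ∧ al (c / Nc) z < (C c).q * be (c / Nc) z ∧
        be (c / Nc) z ≤ (C c).k) := by
  have hap := hok.hap
  have hpq := hok.hpq
  have hqb := hok.hqb
  have hh := hok.hh
  have hk := hok.hk
  have e0 := vtx_eq (Nc := Nc) C c 0 (by norm_num)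
  have e1 := vtx_eq (Nc := Nc) C c 1 (by norm_num)
  have e2 := vtx_eq (Nc := Nc) C c 2 (by norm_num)
  have e3 := vtx_eq (Nc := Nc) C c 3 (by norm_num)
  have e4 := vtx_eq (Nc := Nc) C c 4 (by norm_num)
  have e5 := vtx_eq (Nc := Nc) C c 5 (by norm_num)
  simp only [Cell.pos, Cell.ht, hmd] at e0 e1 e2 e3 e4 e5
  norm_num at e0 e1 e2 e3 e4 e5
  have m0 := mem_tri_W (r := c / Nc) hap hh z
  have m1 := mem_tri_W_radial (r := c / Nc) (a := (C c).p) hh hk z
  have m2 := mem_tri_W (r := c / Nc) hpq hk z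
  have m3 := mem_tri_W_radial (r := c / Nc) (a := (C c).q) hk hh z
  have m4 := mem_tri_W (r := c / Nc) hqb hh z
  constructor
  · rintro ⟨i, hi, hz⟩
    interval_cases i
    · rw [add_zero, e0, e1, m0] at hz
      obtain ⟨z1, z2, z3⟩ := hz
      have hb : 0 ≤ be (c / Nc) z := by nlinarith
      left
      exact ⟨z1, by nlinarith, z3, fun h => absurd h.1 (not_lt.2 z2)⟩
    · rw [e1, e2, m1] at hz
      exact absurd hz.1 hz1
    · rw [e2, e3, m2] at hz
      obtain ⟨z1, z2, z3⟩ := hz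
      right
      exact ⟨lt_of_le_of_ne z1 (Ne.symm hz1), lt_of_le_of_ne z2 hz2, z3⟩
    · rw [e3, e4, m3] at hz
      exact absurd hz.1 hz2
    · rw [e4, e5, m4] at hz
      obtain ⟨z1, z2, z3⟩ := hz
      have hb : 0 ≤ be (c / Nc) z := by nlinarith
      left
      exact ⟨by nlinarith, z2, z3, fun h => absurd h.2 (not_lt.2 z1)⟩
  · rintro (⟨z1, z2, z3, z4⟩ | ⟨z1, z2, z3⟩)
    · by_cases h0 : al (c / Nc) z ≤ (C c).p * be (c / Nc) z
      · exact ⟨0, by norm_num, by rw [add_zero, e0, e1, m0]; exact ⟨z1, h0, z3⟩⟩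
      push Not at h0
      by_cases h3 : (C c).q * be (c / Nc) z ≤ al (c / Nc) z
      · exact ⟨4, by norm_num, by rw [e4, e5, m4]; exact ⟨h3, z2, z3⟩⟩
      push Not at h3
      exact absurd ⟨h0, h3⟩ z4
    · exact ⟨2, by norm_num, by rw [e2, e3, m2]; exact ⟨z1.le, z2.le, z3⟩⟩

section main

variable {R Nc : ℕ} {ρ : ℝ} {C : ℕ → Cell}

/-- the open cone of a cell in terms of the chain -/
theorem cone_cr (h : CellsOk R Nc ρ C) {c : ℕ} (hc : c < R * Nc) {z : V}
    (h1 : (C c).a * be (c / Nc) z < al (c / Nc) z) (h2 : al (c / Nc) z < (C c).b * be (c / Nc) z) :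
    0 < cr (vtx Nc C (6 * c)) z ∧ 0 < cr z (vtx Nc C (6 * c + 5)) := by
  have hok := h.ok c hc
  have e0 := vtx_eq (Nc := Nc) C c 0 (by norm_num)
  have e5 := vtx_eq (Nc := Nc) C c 5 (by norm_num)
  simp only [Cell.pos, Cell.ht] at e0 e5
  norm_num at e0 e5
  have h3 : (0 : ℝ) < 1 + ((c / Nc : ℕ) : ℝ) ^ 2 := by positivity
  have hh := hok.hh
  rw [e0, e5, cr_W_left, cr_W_right]
  constructor
  · apply div_pos _ h3
    exact mul_pos hh (by linarith)
  · apply div_pos _ h3
    exact mul_pos hh (by linarith)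

theorem mem_cellPoly {z : V} : z ∈ cellPoly R Nc C ↔
    ∃ k < 6 * (R * Nc) - 1, z ∈ tri (vtx Nc C k) (vtx Nc C (k + 1)) := Iff.rfl

/-- in the open cone of a cell only its own triangles matter -/
theorem mem_cone (h : CellsOk R Nc ρ C) {c : ℕ} (hc : c < R * Nc) {z : V}
    (h1 : (C c).a * be (c / Nc) z < al (c / Nc) z) (h2 : al (c / Nc) z < (C c).b * be (c / Nc) z) :
    z ∈ cellPoly R Nc C ↔ ∃ i < 5, z ∈ tri (vtx Nc C (6 * c + i)) (vtx Nc C (6 * c + i + 1)) := by
  obtain ⟨h3, h4⟩ := cone_cr h hc h1 h2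
  rw [mem_cellPoly]
  constructor
  · rintro ⟨k, hk, hz⟩
    obtain ⟨h5, h6⟩ := between (chain_cells h) (i := 6 * c) (j := 6 * c + 5) (by omega) (by omega)
      hk h3 h4 hz
    refine ⟨k - 6 * c, by omega, ?_⟩
    have e : 6 * c + (k - 6 * c) = k := by omega
    rw [e]
    exact hz
  · rintro ⟨i, hi, hz⟩
    exact ⟨6 * c + i, by omega, hz⟩

theorem be_pos_of_cone {p q α β : ℝ} (hpq : p < q) (h1 : p * β < α) (h2 : α < q * β) : 0 < β := by
  by_contra h
  push Not at h
  nlinarith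

theorem cone_unique (h : CellsOk R Nc ρ C) {c c' : ℕ} (hc : c < R * Nc) (hc' : c' < R * Nc)
    {z : V} (hz : 0 ≤ z 1)
    (h1 : (C c).a * be (c / Nc) z < al (c / Nc) z) (h2 : al (c / Nc) z < (C c).b * be (c / Nc) z)
    (h1' : (C c').a * be (c' / Nc) z < al (c' / Nc) z)
    (h2' : al (c' / Nc) z < (C c').b * be (c' / Nc) z) : c = c' := by
  have key : ∀ a b : ℕ, a < b → b < R * Nc → 0 < cr z (vtx Nc C (6 * a + 5)) →
      0 < cr (vtx Nc C (6 * b)) z → False := by
    intro a b hab hb ha1 hb1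
    have hch := chain_cells h
    have h5 := chain_mono hch (i := 6 * a + 5) (j := 6 * b) (by omega) (by omega)
    have h6 := cr_trans' (hch.pos (6 * a + 5) (by omega)) (hch.pos (6 * b) (by omega)) hz
      ha1.le h5
    rw [cr_neg] at hb1
    linarith
  obtain ⟨a1, a2⟩ := cone_cr h hc h1 h2
  obtain ⟨b1, b2⟩ := cone_cr h hc' h1' h2'
  rcases lt_trichotomy c c' with h7 | h7 | h7
  · exact (key c c' h7 hc' a2 b1).elim
  · exact h7
  · exact (key c' c h7 hc b2 a1).elim

end main

end DIFF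

open DIFF in
theorem cellPoly_ne {R Nc : ℕ} {ρ : ℝ} {C C' : ℕ → Cell} (h : CellsOk R Nc ρ C)
    (h' : CellsOk R Nc ρ C') (j : ℕ) (hj : j < R * Nc) (hmd : (C j).md = false)
    (hmd' : (C' j).md = true) (ha : (C' j).a = (C j).a) (hb : (C' j).b = (C j).b)
    (hk : (C j).h < (C' j).k) : cellPoly R Nc C' ≠ cellPoly R Nc C := by
  intro he
  have hok := h'.ok j hj
  have hap := hok.hap
  have hpq := hok.hpq
  have hqb := hok.hqb
  have hkk := hok.hk
  set z : V := W (j / Nc) (((C' j).p + (C' j).q) / 2) (C' j).k with hz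
  have hal : al (j / Nc) z = ((C' j).p + (C' j).q) / 2 * (C' j).k := al_W _ _ _
  have hbe : be (j / Nc) z = (C' j).k := be_W _ _ _
  have z1 : (C' j).p * be (j / Nc) z < al (j / Nc) z := by rw [hal, hbe]; nlinarith
  have z2 : al (j / Nc) z < (C' j).q * be (j / Nc) z := by rw [hal, hbe]; nlinarith
  have h1 : z ∈ cellPoly R Nc C' := by
    rw [mem_cone h' hj (by rw [hal, hbe]; nlinarith) (by rw [hal, hbe]; nlinarith)]
    rw [mem_cell_md hok hmd' z z1.ne' z2.ne]
    right
    exact ⟨z1, z2, hbe.le⟩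
  rw [he, mem_cone h hj (by rw [hal, hbe, ← ha]; nlinarith) (by rw [hal, hbe, ← hb]; nlinarith),
    mem_cell_plain (h.ok j hj) hmd, hbe] at h1
  linarith [h1.2.2]

open DIFF in
theorem indicator_formula {R Nc : ℕ} {ρ : ℝ} {C C' : ℕ → Cell} (h : CellsOk R Nc ρ C)
    (h' : CellsOk R Nc ρ C') {ι : Type} [Fintype ι] (r : ℕ) (c : ι → ℕ)
    (hc : Function.Injective c) (hcr : ∀ i, c i < R * Nc ∧ c i / Nc = r)
    (hmd : ∀ j < R * Nc, (C j).md = false) (hC' : ∀ j, j ∉ Set.range c → C' j = C j)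
    (hC'' : ∀ i, (C' (c i)).a = (C (c i)).a ∧ (C' (c i)).b = (C (c i)).b ∧
      (C' (c i)).h = (C (c i)).h ∧ (C' (c i)).md = true)
    (s y sgn : ι → ℝ) (σ₀ σ₁ : ℝ) (hy : ∀ i, 0 < y i)
    (hp : ∀ i, (C' (c i)).p = (s i + σ₀) / y i) (hq : ∀ i, (C' (c i)).q = (s i + σ₁) / y i)
    (hs : ∀ i, (sgn i = 1 ∧ (C (c i)).h = y i ∧ (C' (c i)).k = 2 * y i) ∨
      (sgn i = -1 ∧ (C (c i)).h = 2 * y i ∧ (C' (c i)).k = y i))
    (z : V) (hz : ∀ i, y i * al r z ≠ (s i + σ₀) * be r z ∧
      y i * al r z ≠ (s i + σ₁) * be r z ∧ be r z ≠ y i ∧ be r z ≠ 2 * y i) :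
    (cellPoly R Nc C').indicator (fun _ => (1 : ℝ)) z =
      (cellPoly R Nc C).indicator (fun _ => (1 : ℝ)) z +
        ∑ i, sgn i * (trap r (s i) (y i) σ₀ σ₁).indicator (fun _ => (1 : ℝ)) z := by
  classical
  -- the rays
  have hpz : ∀ i, al r z ≠ (C' (c i)).p * be r z := by
    intro i he
    apply (hz i).1
    rw [he, hp i]
    have := (hy i).ne'
    field_simp
  have hqz : ∀ i, al r z ≠ (C' (c i)).q * be r z := by
    intro i he
    apply (hz i).2.1
    rw [he, hq i]
    have := (hy i).ne'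
    field_simp
  have htrap : ∀ i, z ∈ trap r (s i) (y i) σ₀ σ₁ ↔ (C' (c i)).p * be r z < al r z ∧
      al r z < (C' (c i)).q * be r z ∧ y i ≤ be r z ∧ be r z ≤ 2 * y i := by
    intro i
    have hyi := hy i
    have e1 : (s i + σ₀) * be r z = y i * ((C' (c i)).p * be r z) := by
      rw [hp i]; field_simp
    have e2 : (s i + σ₁) * be r z = y i * ((C' (c i)).q * be r z) := by
      rw [hq i]; field_simp
    constructor
    · rintro ⟨t1, t2, t3, t4⟩
      rw [e1] at t3
      rw [e2] at t4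
      exact ⟨lt_of_le_of_ne (le_of_mul_le_mul_left t3 hyi) (Ne.symm (hpz i)),
        lt_of_le_of_ne (le_of_mul_le_mul_left t4 hyi) (hqz i), t1, t2⟩
    · rintro ⟨t1, t2, t3, t4⟩
      refine ⟨t3, t4, ?_, ?_⟩
      · rw [e1]; exact mul_le_mul_of_nonneg_left t1.le hyi.le
      · rw [e2]; exact mul_le_mul_of_nonneg_left t2.le hyi.le
  by_cases hcone : ∃ i, (C' (c i)).p * be r z < al r z ∧ al r z < (C' (c i)).q * be r z
  · obtain ⟨i, h1, h2⟩ := hcone
    obtain ⟨hci, hcr'⟩ := hcr i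
    have hok := h'.ok (c i) hci
    have hap := hok.hap
    have hpq := hok.hpq
    have hqb := hok.hqb
    have hbe : 0 < be r z := be_pos_of_cone hpq h1 h2
    obtain ⟨ea, eb, eh, em⟩ := hC'' i
    have a1 : (C' (c i)).a * be (c i / Nc) z < al (c i / Nc) z := by rw [hcr']; nlinarith
    have a2 : al (c i / Nc) z < (C' (c i)).b * be (c i / Nc) z := by rw [hcr']; nlinarith
    have hP' : z ∈ cellPoly R Nc C' ↔ be r z ≤ (C' (c i)).k := by
      rw [mem_cone h' hci a1 a2,
        mem_cell_md hok em z (by rw [hcr']; exact hpz i) (by rw [hcr']; exact hqz i), hcr']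
      constructor
      · rintro (⟨-, -, -, h5⟩ | ⟨-, -, h5⟩)
        · exact absurd ⟨h1, h2⟩ h5
        · exact h5
      · intro h5
        right
        exact ⟨h1, h2, h5⟩
    have hP : z ∈ cellPoly R Nc C ↔ be r z ≤ (C (c i)).h := by
      rw [mem_cone h hci (by rw [← ea]; exact a1) (by rw [← eb]; exact a2),
        mem_cell_plain (h.ok (c i) hci) (hmd _ hci), ← ea, ← eb]
      constructor
      · rintro ⟨-, -, h5⟩
        rw [← hcr']
        exact h5
      · intro h5
        exact ⟨a1.le, a2.le, by rw [hcr']; exact h5⟩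
    have hother : ∀ i', i' ≠ i → z ∉ trap r (s i') (y i') σ₀ σ₁ := by
      intro i' hi' ht
      obtain ⟨t1, t2, -, -⟩ := (htrap i').1 ht
      obtain ⟨hci', hcr''⟩ := hcr i'
      have hok' := h'.ok (c i') hci'
      apply hi'
      apply hc
      apply cone_unique h' hci' hci (z := z) _ _ _ a1 a2
      · -- 0 ≤ z 1
        obtain ⟨k1, k2⟩ := cone_cr h' hci a1 a2
        have hch := chain_cells h'
        have q1 := hch.pos (6 * c i) (by omega)
        have q2 := hch.pos (6 * c i + 5) (by omega)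
        have q3 := chain_mono hch (i := 6 * c i) (j := 6 * c i + 5) (by omega) (by omega)
        -- z is a positive combination of the two vertices
        by_contra hneg
        push Not at hneg
        have hW : ∀ a : ℝ, be r (W r a 1) = 1 := fun a => be_W r a 1
        have e3 : z 1 = (be r z - r * al r z) / (1 + (r : ℝ) ^ 2) := by
          unfold al be
          have : (1 + (r : ℝ) ^ 2) ≠ 0 := by positivity
          field_simp
          ring
        have e4 : (r : ℝ) * al r z ≤ be r z := by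
          have b1 : al r z ≤ ρ * be r z := by
            have := h'.hi (c i) hci
            nlinarith
          have b2 : (r : ℝ) * ρ ≤ 1 := by
            have hr : r < R := by
              rw [← hcr']
              exact Nat.div_lt_of_lt_mul (by rw [Nat.mul_comm]; exact hci)
            have hr' : (r : ℝ) ≤ R := by exact_mod_cast hr.le
            have hρ := h'.hρ
            have hρ' := h'.hρ'
            nlinarith [sq_nonneg ((R : ℝ) - 1)]
          have b3 : (0 : ℝ) ≤ r := Nat.cast_nonneg _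
          nlinarith [mul_le_mul_of_nonneg_left b1 b3]
        rw [e3] at hneg
        have : 0 ≤ (be r z - r * al r z) / (1 + (r : ℝ) ^ 2) := by
          apply div_nonneg _ (by positivity)
          linarith
        linarith
      · rw [hcr'']
        have := hok'.hap
        nlinarith
      · rw [hcr'']
        have := hok'.hqb
        nlinarith
    rw [Finset.sum_eq_single i]
    · have hti : z ∈ trap r (s i) (y i) σ₀ σ₁ ↔ y i ≤ be r z ∧ be r z ≤ 2 * y i := by
        rw [htrap i]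
        exact ⟨fun t => t.2.2, fun t => ⟨h1, h2, t⟩⟩
      have n1 := (hz i).2.2.1
      have n2 := (hz i).2.2.2
      have hyi := hy i
      simp only [Set.indicator_apply, hP', hP, hti]
      rcases hs i with ⟨s1, s2, s3⟩ | ⟨s1, s2, s3⟩
      · rw [s1, s2, s3]
        by_cases c1 : be r z ≤ y i
        · have c2 : be r z < y i := lt_of_le_of_ne c1 n1
          rw [if_pos (by linarith), if_pos c1, if_neg (by intro t; linarith [t.1])]
          ring
        · push Not at c1
          by_cases c3 : be r z ≤ 2 * y i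
          · rw [if_pos c3, if_neg (by linarith), if_pos ⟨c1.le, c3⟩]
            ring
          · rw [if_neg c3, if_neg (by linarith), if_neg (fun t => c3 t.2)]
            ring
      · rw [s1, s2, s3]
        by_cases c1 : be r z ≤ y i
        · have c2 : be r z < y i := lt_of_le_of_ne c1 n1
          rw [if_pos c1, if_pos (by linarith), if_neg (by intro t; linarith [t.1])]
          ring
        · push Not at c1
          by_cases c3 : be r z ≤ 2 * y i
          · rw [if_neg (by linarith), if_pos c3, if_pos ⟨c1.le, c3⟩]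
            ring
          · rw [if_neg (by linarith), if_neg c3, if_neg (fun t => c3 t.2)]
            ring
    · intro i' _ hi'
      rw [Set.indicator_of_notMem (hother i' hi'), mul_zero]
    · intro hi
      exact absurd (Finset.mem_univ i) hi
  · push Not at hcone
    have hsum : ∑ i, sgn i * (trap r (s i) (y i) σ₀ σ₁).indicator (fun _ => (1 : ℝ)) z = 0 := by
      apply Finset.sum_eq_zero
      intro i _
      rw [Set.indicator_of_notMem, mul_zero]
      intro ht
      obtain ⟨t1, t2, -, -⟩ := (htrap i).1 ht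
      exact absurd (hcone i t1) (not_le.2 t2)
    have hall : ∀ j, (C' j).a = (C j).a ∧ (C' j).b = (C j).b ∧ (C' j).h = (C j).h := by
      intro j
      by_cases hj : j ∈ Set.range c
      · obtain ⟨i, rfl⟩ := hj
        exact ⟨(hC'' i).1, (hC'' i).2.1, (hC'' i).2.2.1⟩
      · rw [hC' j hj]
        exact ⟨rfl, rfl, rfl⟩
    have hiff : z ∈ cellPoly R Nc C' ↔ z ∈ cellPoly R Nc C := by
      have hgap : ∀ j, vtx Nc C' (6 * j + 5) = vtx Nc C (6 * j + 5) ∧
          vtx Nc C' (6 * j + 5 + 1) = vtx Nc C (6 * j + 5 + 1) := by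
        intro j
        refine ⟨vtx_congr_right C j (hall j).2.1 (hall j).2.2, ?_⟩
        have e : 6 * j + 5 + 1 = 6 * (j + 1) := by ring
        rw [e]
        exact vtx_congr_left C (j + 1) (hall (j + 1)).1 (hall (j + 1)).2.2
      have hcell : ∀ j < R * Nc, (∃ i < 5, z ∈ tri (vtx Nc C' (6 * j + i)) (vtx Nc C' (6 * j + i + 1))) ↔
          (∃ i < 5, z ∈ tri (vtx Nc C (6 * j + i)) (vtx Nc C (6 * j + i + 1))) := by
        intro j hj
        by_cases hjr : j ∈ Set.range c
        · obtain ⟨i, rfl⟩ := hjr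
          obtain ⟨hci, hcr'⟩ := hcr i
          obtain ⟨ea, eb, eh, em⟩ := hC'' i
          rw [mem_cell_md (h'.ok _ hci) em z (by rw [hcr']; exact hpz i)
            (by rw [hcr']; exact hqz i), mem_cell_plain (h.ok _ hci) (hmd _ hci), hcr', ea, eb, eh]
          have hn : ¬ ((C' (c i)).p * be r z < al r z ∧ al r z < (C' (c i)).q * be r z) :=
            fun t => absurd (hcone i t.1) (not_le.2 t.2)
          constructor
          · rintro (⟨t1, t2, t3, -⟩ | ⟨t1, t2, -⟩)
            · exact ⟨t1, t2, t3⟩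
            · exact absurd ⟨t1, t2⟩ hn
          · rintro ⟨t1, t2, t3⟩
            exact Or.inl ⟨t1, t2, t3, hn⟩
        · have e : ∀ i < 6, vtx Nc C' (6 * j + i) = vtx Nc C (6 * j + i) := by
            intro i hi
            rw [vtx_eq C' j i hi, vtx_eq C j i hi, hC' j hjr]
          constructor
          · rintro ⟨i, hi, t⟩
            refine ⟨i, hi, ?_⟩
            rw [e i (by omega), add_assoc, e (i + 1) (by omega), ← add_assoc] at t
            exact t
          · rintro ⟨i, hi, t⟩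
            refine ⟨i, hi, ?_⟩
            rw [e i (by omega), add_assoc, e (i + 1) (by omega), ← add_assoc]
            exact t
      have split : ∀ D : ℕ → Cell, z ∈ cellPoly R Nc D ↔
          (∃ j < R * Nc, ∃ i < 5, z ∈ tri (vtx Nc D (6 * j + i)) (vtx Nc D (6 * j + i + 1))) ∨
          (∃ j, j + 1 < R * Nc ∧ z ∈ tri (vtx Nc D (6 * j + 5)) (vtx Nc D (6 * j + 5 + 1))) := by
        intro D
        rw [mem_cellPoly]
        constructor
        · rintro ⟨k, hk, t⟩
          by_cases h5 : k % 6 < 5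
          · left
            refine ⟨k / 6, by omega, k % 6, h5, ?_⟩
            have e : 6 * (k / 6) + k % 6 = k := by omega
            rw [e]
            exact t
          · right
            refine ⟨k / 6, by omega, ?_⟩
            have e : 6 * (k / 6) + 5 = k := by omega
            rw [e]
            exact t
        · rintro (⟨j, hj, i, hi, t⟩ | ⟨j, hj, t⟩)
          · exact ⟨6 * j + i, by omega, t⟩
          · exact ⟨6 * j + 5, by omega, t⟩
      rw [split C', split C]
      constructor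
      · rintro (⟨j, hj, t⟩ | ⟨j, hj, t⟩)
        · exact Or.inl ⟨j, hj, (hcell j hj).1 t⟩
        · refine Or.inr ⟨j, hj, ?_⟩
          rw [(hgap j).1, (hgap j).2] at t
          exact t
      · rintro (⟨j, hj, t⟩ | ⟨j, hj, t⟩)
        · exact Or.inl ⟨j, hj, (hcell j hj).2 t⟩
        · refine Or.inr ⟨j, hj, ?_⟩
          rw [(hgap j).1, (hgap j).2]
          exact t
    rw [hsum, add_zero]
    simp only [Set.indicator_apply, hiff]

end Pool.Agent.XR
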