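import Mathlib
import Pool.Agent.XR.Defs

/-! # Choice of the frame -/

noncomputable section

namespace Pool.Agent.XR

open MeasureTheory

open scoped ENNReal

namespace FCHOICE

lemma norm_sq_eq {z : V} (hz : ‖z‖ = 1) : z 0 ^ 2 + z 1 ^ 2 = 1 := by
  have h := EuclideanSpace.real_norm_sq_eq z
  rw [hz, Fin.sum_univ_two] at h
  linarith

lemma abs_le_one {z : V} (hz : ‖z‖ = 1) : |z 0| ≤ 1 ∧ |z 1| ≤ 1 := by
  have h := norm_sq_eq hz
  constructor
  · exact abs_le_one_iff_mul_self_le_one.mpr (by nlinarith [sq_nonneg (z 1)])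
  · exact abs_le_one_iff_mul_self_le_one.mpr (by nlinarith [sq_nonneg (z 0)])

/-- two frames cannot both be bad -/
lemma not_both {m : ℕ} {z : V} (hz : ‖z‖ = 1) {r r' : ℕ} (hr : r ≤ m) (hne : r ≠ r')
    (h1 : (2 * m + 3) * |be r z| < 1) (h2 : (2 * m + 3) * |be r' z| < 1) : False := by
  have hsq := norm_sq_eq hz
  have hm : (0 : ℝ) ≤ m := Nat.cast_nonneg m
  set D : ℝ := 2 * m + 3 with hD
  have hDpos : 0 < D := by positivity
  have hsub : ((r : ℝ) - r') * z 0 = be r z - be r' z := by unfold be; ring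
  have hrr : (1 : ℝ) ≤ |(r : ℝ) - r'| := by
    have h3 : ((r : ℤ) - r') ≠ 0 := by
      intro h4
      apply hne
      omega
    have h5 := Int.one_le_abs h3
    have h6 : ((1 : ℤ) : ℝ) ≤ ((|(r : ℤ) - r'| : ℤ) : ℝ) := by exact_mod_cast h5
    push_cast at h6
    exact h6
  have h0 : D * |z 0| < 2 := by
    have h3 : |z 0| ≤ |be r z - be r' z| := by
      rw [← hsub, abs_mul]
      nlinarith [abs_nonneg (z 0)]
    have h4 := abs_sub (be r z) (be r' z)
    nlinarith
  have hz1 : |z 1| ≤ |be r z| + m * |z 0| := by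
    have h3 : z 1 = be r z - r * z 0 := by unfold be; ring
    rw [h3]
    refine (abs_sub _ _).trans ?_
    rw [abs_mul, Nat.abs_cast]
    have h4 : (r : ℝ) ≤ m := by exact_mod_cast hr
    nlinarith [abs_nonneg (z 0)]
  have h1' : D * |z 1| < 2 * m + 1 := by nlinarith
  have e0 : (D * |z 0|) ^ 2 < 4 := by nlinarith [abs_nonneg (z 0), mul_nonneg hDpos.le (abs_nonneg (z 0))]
  have e1 : (D * |z 1|) ^ 2 < (2 * m + 1) ^ 2 := by
    nlinarith [abs_nonneg (z 1), mul_nonneg hDpos.le (abs_nonneg (z 1))]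
  have e2 : (D * |z 0|) ^ 2 + (D * |z 1|) ^ 2 = D ^ 2 := by
    rw [mul_pow, mul_pow, sq_abs, sq_abs, ← mul_add, hsq, mul_one]
  rw [hD] at e2
  nlinarith

end FCHOICE

theorem exists_frame (m : ℕ) (d : Fin m → V) (hd : ∀ j, ‖d j‖ = 1) :
    ∃ r ≤ m, ∀ j, be r (d j) ≠ 0 ∧
      |al r (d j) / be r (d j)| ≤ (1 + m) * (2 * m + 3) := by
  by_contra hcon
  push Not at hcon
  have hbad : ∀ r : Fin (m + 1), ∃ j, (2 * (m : ℝ) + 3) * |be r (d j)| < 1 := by
    intro r
    by_contra h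
    push Not at h
    have hr : (r : ℕ) ≤ m := Nat.lt_succ_iff.mp r.2
    obtain ⟨j, hj⟩ := hcon r hr
    have h1 := h j
    have hm : (0 : ℝ) ≤ m := Nat.cast_nonneg m
    have hne : be r (d j) ≠ 0 := by
      intro h0
      rw [h0, abs_zero, mul_zero] at h1
      linarith
    have h2 := hj hne
    have h3 : |al r (d j)| ≤ 1 + m := by
      obtain ⟨g1, g2⟩ := FCHOICE.abs_le_one (hd j)
      unfold al
      refine (abs_sub _ _).trans ?_
      rw [abs_mul, Nat.abs_cast]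
      have h4 : ((r : ℕ) : ℝ) ≤ m := by exact_mod_cast hr
      have h5 : (0 : ℝ) ≤ ((r : ℕ) : ℝ) := Nat.cast_nonneg _
      nlinarith [abs_nonneg ((d j) 1)]
    rw [abs_div, lt_div_iff₀ (abs_pos.mpr hne)] at h2
    have h6 : (1 + (m : ℝ)) * (2 * m + 3) * |be r (d j)| ≥ (1 + m) * 1 := by
      rw [mul_assoc]
      exact mul_le_mul_of_nonneg_left h1 (by positivity)
    linarith
  choose j hj using hbad
  obtain ⟨r, r', hne, heq⟩ := Fintype.exists_ne_map_eq_of_card_lt j (by simp)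
  refine FCHOICE.not_both (m := m) (hd (j r)) (Nat.lt_succ_iff.mp r.2)
    (fun h => hne (Fin.ext h)) (hj r) ?_
  rw [heq]
  exact hj r'

end Pool.Agent.XR
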