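import Mathlib
import Pool.Agent.XR.Defs

/-! # The frontier of the region below a chain -/

noncomputable section

namespace Pool.Agent.XR

open MeasureTheory

open scoped ENNReal

namespace FRONT

open Filter Topology

theorem cr_comb_left (u w : V) (a b : ℝ) : cr (a • u + b • w) w = a * cr u w := by
  simp [cr]; ring

theorem cr_comb_right (u w : V) (a b : ℝ) : cr u (a • u + b • w) = b * cr u w := by
  simp [cr]; ring

theorem cramer {u w : V} (h : cr u w ≠ 0) (z : V) :
    z = (cr z w / cr u w) • u + (cr u z / cr u w) • w := by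
  ext i
  fin_cases i
  · simp only [Fin.zero_eta, PiLp.add_apply, PiLp.smul_apply, smul_eq_mul]
    field_simp
    simp only [cr]
    ring
  · simp only [Fin.mk_one, PiLp.add_apply, PiLp.smul_apply, smul_eq_mul]
    field_simp
    simp only [cr]
    ring

theorem mem_tri {u w : V} (h : 0 < cr u w) (z : V) :
    z ∈ tri u w ↔ 0 ≤ cr z w ∧ 0 ≤ cr u z ∧ cr z w + cr u z ≤ cr u w := by
  constructor
  · rintro ⟨a, b, ha, hb, hab, rfl⟩
    rw [cr_comb_left, cr_comb_right]
    refine ⟨by positivity, by positivity, ?_⟩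
    nlinarith
  · rintro ⟨h1, h2, h3⟩
    refine ⟨cr z w / cr u w, cr u z / cr u w, by positivity, by positivity, ?_, cramer h.ne' z⟩
    rw [← add_div]
    exact (div_le_one h).2 h3

/-- transitivity -/
theorem cr_trans (u w x : V) : w 1 * cr u x = u 1 * cr w x + x 1 * cr u w := by
  simp only [cr]; ring

theorem cr_anti (u w : V) : cr u w = -cr w u := by
  simp only [cr]; ring

theorem cr_nonneg_trans {u w x : V} (hu : 0 ≤ u 1) (hw : 0 < w 1) (hx : 0 ≤ x 1)
    (h1 : 0 ≤ cr u w) (h2 : 0 ≤ cr w x) : 0 ≤ cr u x := by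
  have h := cr_trans u w x
  have h3 : 0 ≤ w 1 * cr u x := by rw [h]; positivity
  exact nonneg_of_mul_nonneg_right h3 hw

theorem cr_mono {n : ℕ} {v : ℕ → V} (h : Chain n v) {i j : ℕ} (hij : i ≤ j) (hj : j ≤ n) :
    0 ≤ cr (v i) (v j) := by
  induction j, hij using Nat.le_induction with
  | base => simp [cr]
  | succ j hij ih =>
    exact cr_nonneg_trans (h.pos i (by omega)).le (h.pos j (by omega)) (h.pos _ hj).le
      (ih (by omega)) (h.mono j (by omega))

theorem tri_snd {u w z : V} (hu : 0 < u 1) (hw : 0 < w 1) (hz : z ∈ tri u w) : 0 ≤ z 1 := by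
  obtain ⟨a, b, ha, hb, -, rfl⟩ := hz
  simp only [PiLp.add_apply, PiLp.smul_apply, smul_eq_mul]
  positivity

theorem tri_cr {u w z : V} (h : 0 ≤ cr u w) (hz : z ∈ tri u w) : 0 ≤ cr z w ∧ 0 ≤ cr u z := by
  obtain ⟨a, b, ha, hb, -, rfl⟩ := hz
  rw [cr_comb_left, cr_comb_right]
  exact ⟨by positivity, by positivity⟩

/-- points of the open cone `k` can only be in the triangle `k` -/
theorem not_mem_of_cone {n : ℕ} {v : ℕ → V} (h : Chain n v) {k : ℕ} (hk : k < n) {z : V}
    (h1 : 0 < cr (v k) z) (h2 : 0 < cr z (v (k + 1)))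
    (h3 : cr (v k) (v (k + 1)) < cr z (v (k + 1)) + cr (v k) z) : z ∉ chainSet n v := by
  rintro ⟨j, hj, hz⟩
  obtain ⟨h4, h5⟩ := tri_cr (h.mono j hj) hz
  have hz1 : 0 ≤ z 1 := tri_snd (h.pos j hj.le) (h.pos (j + 1) hj) hz
  rcases lt_trichotomy j k with hjk | rfl | hjk
  · have := cr_nonneg_trans hz1 (h.pos (j + 1) hj) (h.pos k hk.le).le h4
      (cr_mono h (by omega : j + 1 ≤ k) hk.le)
    rw [cr_anti] at this
    linarith
  · by_cases h0 : 0 < cr (v j) (v (j + 1))
    · have := ((mem_tri h0 z).1 hz).2.2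
      linarith
    · have h0' : cr (v j) (v (j + 1)) = 0 := le_antisymm (not_lt.1 h0) (h.mono j hj)
      obtain ⟨a, b, ha, hb, -, rfl⟩ := hz
      rw [cr_comb_right, h0'] at h1
      linarith
  · have := cr_nonneg_trans (h.pos (k + 1) hk).le (h.pos j hj.le) hz1
      (cr_mono h (by omega : k + 1 ≤ j) hj.le) h5
    rw [cr_anti] at this
    linarith

theorem tendsto_cr_left {f : ℝ → V} {z : V} (hf : Tendsto f (𝓝[>] 0) (𝓝 z)) (w : V) :
    Tendsto (fun e => cr (f e) w) (𝓝[>] 0) (𝓝 (cr z w)) := by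
  have hc : Continuous fun z : V => cr z w := by unfold cr; fun_prop
  exact (hc.tendsto z).comp hf

theorem tendsto_cr_right {f : ℝ → V} {z : V} (hf : Tendsto f (𝓝[>] 0) (𝓝 z)) (w : V) :
    Tendsto (fun e => cr w (f e)) (𝓝[>] 0) (𝓝 (cr w z)) := by
  have hc : Continuous fun z : V => cr w z := by unfold cr; fun_prop
  exact (hc.tendsto z).comp hf

theorem mem_closure_compl {P : Set V} {z : V} (f : ℝ → V) (hf : Tendsto f (𝓝[>] 0) (𝓝 z))
    (h : ∀ᶠ e in 𝓝[>] (0 : ℝ), f e ∉ P) : z ∈ closure Pᶜ :=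
  mem_closure_of_tendsto hf h

/-- shift to the right -/
def sh (z : V) (e : ℝ) : V := z + e • !₂[1, 0]

theorem sh_zero (z : V) (e : ℝ) : sh z e 0 = z 0 + e := by simp [sh]

theorem sh_one (z : V) (e : ℝ) : sh z e 1 = z 1 := by simp [sh]

theorem cr_sh_left (z w : V) (e : ℝ) : cr (sh z e) w = cr z w - e * w 1 := by
  simp only [cr, sh_zero, sh_one]; ring

theorem cr_sh_right (z w : V) (e : ℝ) : cr w (sh z e) = cr w z + e * w 1 := by
  simp only [cr, sh_zero, sh_one]; ring

theorem tendsto_sh (z : V) (c : ℝ) : Tendsto (fun e : ℝ => sh z (c * e)) (𝓝[>] 0) (𝓝 z) := by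
  have hc : Continuous fun e : ℝ => sh z (c * e) := by unfold sh; fun_prop
  have := (hc.tendsto 0).mono_left (nhdsWithin_le_nhds (s := Set.Ioi 0))
  simpa [sh] using this

/-- open edges of nondegenerate triangles -/
theorem edge_out {n : ℕ} {v : ℕ → V} (h : Chain n v) {k : ℕ} (hk : k < n)
    (h0 : 0 < cr (v k) (v (k + 1))) :
    openSegment ℝ (v k) (v (k + 1)) ⊆ closure (chainSet n v)ᶜ := by
  rintro z ⟨a, b, ha, hb, hab, rfl⟩
  refine mem_closure_compl (fun e => (1 + e) • (a • v k + b • v (k + 1))) ?_ ?_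
  · have hc : Continuous fun e : ℝ => (1 + e) • (a • v k + b • v (k + 1)) := by fun_prop
    have := (hc.tendsto 0).mono_left (nhdsWithin_le_nhds (s := Set.Ioi 0))
    simpa using this
  · filter_upwards [self_mem_nhdsWithin] with e he
    have he' : 0 < e := he
    have e1 : (1 + e) • (a • v k + b • v (k + 1)) =
        ((1 + e) * a) • v k + ((1 + e) * b) • v (k + 1) := by
      rw [smul_add, smul_smul, smul_smul]
    rw [e1]
    apply not_mem_of_cone h hk
    · rw [cr_comb_right]; positivity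
    · rw [cr_comb_left]; positivity
    · rw [cr_comb_right, cr_comb_left]
      have e2 : (1 + e) * a * cr (v k) (v (k + 1)) + (1 + e) * b * cr (v k) (v (k + 1)) =
          (1 + e) * (a + b) * cr (v k) (v (k + 1)) := by ring
      rw [e2, hab]
      nlinarith

/-- points on the ray of `v (k+1)` beyond it, as seen from the left -/
theorem ray_out_left {n : ℕ} {v : ℕ → V} (h : Chain n v) {k : ℕ} (hk : k < n)
    (h0 : 0 < cr (v k) (v (k + 1))) {a : ℝ} (ha : 1 < a) :
    a • v (k + 1) ∈ closure (chainSet n v)ᶜ := by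
  have hf := tendsto_sh (a • v (k + 1)) (-1)
  refine mem_closure_compl _ hf ?_
  have e1 : cr (v k) (a • v (k + 1)) = a * cr (v k) (v (k + 1)) := by
    simp only [cr, PiLp.smul_apply, smul_eq_mul]; ring
  have e2 : cr (a • v (k + 1)) (v (k + 1)) = 0 := by
    simp only [cr, PiLp.smul_apply, smul_eq_mul]; ring
  have h1 : ∀ᶠ e in 𝓝[>] (0 : ℝ), 0 < cr (v k) (sh (a • v (k + 1)) (-1 * e)) :=
    (tendsto_cr_right hf (v k)).eventually_const_lt (by rw [e1]; positivity)
  have h2 : ∀ᶠ e in 𝓝[>] (0 : ℝ), cr (v k) (v (k + 1)) <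
      cr (sh (a • v (k + 1)) (-1 * e)) (v (k + 1)) + cr (v k) (sh (a • v (k + 1)) (-1 * e)) :=
    ((tendsto_cr_left hf (v (k + 1))).add (tendsto_cr_right hf (v k))).eventually_const_lt
      (by rw [e1, e2]; nlinarith)
  filter_upwards [h1, h2, self_mem_nhdsWithin] with e h3 h4 he
  have he' : 0 < e := he
  apply not_mem_of_cone h hk h3 _ h4
  rw [cr_sh_left, e2]
  have := mul_pos he' (h.pos (k + 1) hk)
  linarith

/-- points on the ray of `v k` beyond it, as seen from the right -/
theorem ray_out_right {n : ℕ} {v : ℕ → V} (h : Chain n v) {k : ℕ} (hk : k < n)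
    (h0 : 0 < cr (v k) (v (k + 1))) {a : ℝ} (ha : 1 < a) :
    a • v k ∈ closure (chainSet n v)ᶜ := by
  have hf := tendsto_sh (a • v k) 1
  refine mem_closure_compl _ hf ?_
  have e1 : cr (a • v k) (v (k + 1)) = a * cr (v k) (v (k + 1)) := by
    simp only [cr, PiLp.smul_apply, smul_eq_mul]; ring
  have e2 : cr (v k) (a • v k) = 0 := by
    simp only [cr, PiLp.smul_apply, smul_eq_mul]; ring
  have h1 : ∀ᶠ e in 𝓝[>] (0 : ℝ), 0 < cr (sh (a • v k) (1 * e)) (v (k + 1)) :=
    (tendsto_cr_left hf (v (k + 1))).eventually_const_lt (by rw [e1]; positivity)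
  have h2 : ∀ᶠ e in 𝓝[>] (0 : ℝ), cr (v k) (v (k + 1)) <
      cr (sh (a • v k) (1 * e)) (v (k + 1)) + cr (v k) (sh (a • v k) (1 * e)) :=
    ((tendsto_cr_left hf (v (k + 1))).add (tendsto_cr_right hf (v k))).eventually_const_lt
      (by rw [e1, e2]; nlinarith)
  filter_upwards [h1, h2, self_mem_nhdsWithin] with e h3 h4 he
  have he' : 0 < e := he
  apply not_mem_of_cone h hk _ h3 h4
  rw [cr_sh_right, e2]
  have := mul_pos he' (h.pos k hk.le)
  linarith

/-- a degenerate edge is radial -/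
theorem radial {n : ℕ} {v : ℕ → V} (h : Chain n v) {k : ℕ} (hk : k < n)
    (h0 : cr (v k) (v (k + 1)) = 0) : ∃ c : ℝ, 0 < c ∧ c ≠ 1 ∧ v (k + 1) = c • v k := by
  have p1 := h.pos k hk.le
  have p2 := h.pos (k + 1) hk
  refine ⟨v (k + 1) 1 / v k 1, by positivity, ?_, ?_⟩
  · intro hc
    rw [div_eq_one_iff_eq p1.ne'] at hc
    apply h.ne k hk
    ext i
    fin_cases i
    · simp only [cr, hc] at h0
      have : v k 1 * (v (k + 1) 0 - v k 0) = 0 := by linarith
      rcases mul_eq_zero.1 this with h1 | h1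
      · exact absurd h1 p1.ne'
      · simp only [Fin.zero_eta]; linarith
    · simp only [Fin.mk_one]; exact hc.symm
  · ext i
    fin_cases i
    · simp only [Fin.zero_eta, PiLp.smul_apply, smul_eq_mul]
      field_simp
      simp only [cr] at h0
      linarith
    · simp only [Fin.mk_one, PiLp.smul_apply, smul_eq_mul]
      field_simp

theorem edge_closure {n : ℕ} {v : ℕ → V} (h : Chain n v) {k : ℕ} (hk : k < n) :
    segment ℝ (v k) (v (k + 1)) ⊆ closure (chainSet n v)ᶜ := by
  rw [← closure_openSegment]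
  refine closure_minimal ?_ isClosed_closure
  by_cases h0 : 0 < cr (v k) (v (k + 1))
  · exact edge_out h hk h0
  · have h0' : cr (v k) (v (k + 1)) = 0 := le_antisymm (not_lt.1 h0) (h.mono k hk)
    obtain ⟨c, hc, hc1, hv⟩ := radial h hk h0'
    rintro z ⟨a, b, ha, hb, hab, rfl⟩
    have hk1 : k + 1 < n := by
      by_contra hh
      have : k = n - 1 := by omega
      have h2 := h.last
      have h3 : n - 1 + 1 = n := by omega
      rw [this, h3] at h0
      exact h0 h2
    have hk0 : 1 ≤ k := by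
      by_contra hh
      have : k = 0 := by omega
      subst this
      exact h0 h.first
    rcases lt_or_gt_of_ne hc1 with hlt | hgt
    · -- c < 1: from the right
      have h2 : 0 < cr (v (k + 1)) (v (k + 1 + 1)) := (h.alt k hk1).resolve_left h0
      have e : a • v k + b • v (k + 1) = (a / c + b) • v (k + 1) := by
        rw [add_smul, hv, smul_smul, smul_smul, div_mul_cancel₀ _ hc.ne']
      rw [e]
      apply ray_out_right h hk1 h2
      rw [← sub_pos]
      have : a / c + b - 1 = a * (1 - c) / c := by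
        field_simp
        have : b = 1 - a := by linarith
        rw [this]; ring
      rw [this]
      have : 0 < 1 - c := by linarith
      positivity
    · -- c > 1: from the left
      have h2 : 0 < cr (v (k - 1)) (v (k - 1 + 1)) := by
        have h3 := h.alt (k - 1) (by omega)
        have e1 : k - 1 + 1 = k := by omega
        have e2 : k - 1 + 2 = k + 1 := by omega
        rw [e1, e2] at h3
        rw [e1]
        exact h3.resolve_right h0
      have e1 : k - 1 + 1 = k := by omega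
      have e : a • v k + b • v (k + 1) = (a + b * c) • v (k - 1 + 1) := by
        rw [e1, add_smul, hv, smul_smul]
      rw [e]
      apply ray_out_left h (by omega) h2
      nlinarith

theorem left_out {n : ℕ} {v : ℕ → V} (h : Chain n v) :
    segment ℝ 0 (v 0) ⊆ closure (chainSet n v)ᶜ := by
  rintro z ⟨a, b, ha, hb, hab, rfl⟩
  refine mem_closure_compl _ (tendsto_sh _ (-1)) ?_
  filter_upwards [self_mem_nhdsWithin] with e he
  have he' : 0 < e := he
  rintro ⟨j, hj, hz⟩
  obtain ⟨h4, h5⟩ := tri_cr (h.mono j hj) hz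
  have hz1 := tri_snd (h.pos j hj.le) (h.pos (j + 1) hj) hz
  have := cr_nonneg_trans (h.pos 0 (by omega)).le (h.pos j hj.le) hz1
    (cr_mono h (Nat.zero_le j) hj.le) h5
  rw [cr_sh_right] at this
  have e2 : cr (v 0) (a • (0 : V) + b • v 0) = 0 := by
    simp only [cr, PiLp.add_apply, PiLp.smul_apply, smul_eq_mul, PiLp.zero_apply]; ring
  rw [e2] at this
  have := mul_pos he' (h.pos 0 (by omega))
  linarith

theorem right_out {n : ℕ} {v : ℕ → V} (h : Chain n v) :
    segment ℝ (v n) 0 ⊆ closure (chainSet n v)ᶜ := by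
  rintro z ⟨a, b, ha, hb, hab, rfl⟩
  refine mem_closure_compl _ (tendsto_sh _ 1) ?_
  filter_upwards [self_mem_nhdsWithin] with e he
  have he' : 0 < e := he
  rintro ⟨j, hj, hz⟩
  obtain ⟨h4, h5⟩ := tri_cr (h.mono j hj) hz
  have hz1 := tri_snd (h.pos j hj.le) (h.pos (j + 1) hj) hz
  have := cr_nonneg_trans hz1 (h.pos (j + 1) hj) (h.pos n le_rfl).le h4
    (cr_mono h (by omega : j + 1 ≤ n) le_rfl)
  rw [cr_sh_left] at this
  have e2 : cr (a • v n + b • (0 : V)) (v n) = 0 := by
    simp only [cr, PiLp.add_apply, PiLp.smul_apply, smul_eq_mul, PiLp.zero_apply]; ring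
  rw [e2] at this
  have := mul_pos he' (h.pos n le_rfl)
  linarith

theorem ev_left {w z : V} {c : ℝ} (h : c < cr z w) : ∀ᶠ y in 𝓝 z, c < cr y w := by
  have hc : Continuous fun z : V => cr z w := by unfold cr; fun_prop
  exact (hc.tendsto z).eventually_const_lt h

theorem ev_right {u z : V} {c : ℝ} (h : c < cr u z) : ∀ᶠ y in 𝓝 z, c < cr u y := by
  have hc : Continuous fun z : V => cr u z := by unfold cr; fun_prop
  exact (hc.tendsto z).eventually_const_lt h

theorem ev_sum {u w z : V} {c : ℝ} (h : cr z w + cr u z < c) :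
    ∀ᶠ y in 𝓝 z, cr y w + cr u y < c := by
  have hc : Continuous fun z : V => cr z w + cr u z := by unfold cr; fun_prop
  exact (hc.tendsto z).eventually_lt_const h

theorem two_sides {n : ℕ} {v : ℕ → V} {i j : ℕ} (hi : i < n) (hj : j < n)
    (h1 : 0 < cr (v i) (v (i + 1))) (h2 : 0 < cr (v j) (v (j + 1))) {a b : ℝ}
    (ha : 0 < a) (ha1 : a < 1) (hb : 0 < b) (hb1 : b < 1) {z : V}
    (hz : z = a • v (i + 1)) (hz' : z = b • v j) : z ∈ interior (chainSet n v) := by
  rw [mem_interior_iff_mem_nhds]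
  have e1 : cr (v i) z = a * cr (v i) (v (i + 1)) := by
    rw [hz]; simp only [cr, PiLp.smul_apply, smul_eq_mul]; ring
  have e2 : cr z (v (i + 1)) = 0 := by
    rw [hz]; simp only [cr, PiLp.smul_apply, smul_eq_mul]; ring
  have e3 : cr z (v (j + 1)) = b * cr (v j) (v (j + 1)) := by
    rw [hz']; simp only [cr, PiLp.smul_apply, smul_eq_mul]; ring
  have e4 : cr (v j) z = 0 := by
    rw [hz']; simp only [cr, PiLp.smul_apply, smul_eq_mul]; ring
  have c1 : ∀ᶠ y in 𝓝 z, 0 < cr (v i) y := ev_right (by rw [e1]; positivity)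
  have c2 : ∀ᶠ y in 𝓝 z, cr y (v (i + 1)) + cr (v i) y < cr (v i) (v (i + 1)) :=
    ev_sum (by rw [e1, e2]; nlinarith)
  have c3 : ∀ᶠ y in 𝓝 z, 0 < cr y (v (j + 1)) := ev_left (by rw [e3]; positivity)
  have c4 : ∀ᶠ y in 𝓝 z, cr y (v (j + 1)) + cr (v j) y < cr (v j) (v (j + 1)) :=
    ev_sum (by rw [e3, e4]; nlinarith)
  filter_upwards [c1, c2, c3, c4] with y d1 d2 d3 d4
  by_cases hy : 0 ≤ cr (v j) y
  · exact ⟨j, hj, (mem_tri h2 y).2 ⟨d3.le, hy, d4.le⟩⟩
  · refine ⟨i, hi, (mem_tri h1 y).2 ⟨?_, d1.le, d2.le⟩⟩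
    have e5 : v (i + 1) = (b / a) • v j := by
      have : a • v (i + 1) = b • v j := by rw [← hz, ← hz']
      rw [div_eq_inv_mul, mul_smul, ← this, smul_smul, inv_mul_cancel₀ ha.ne', one_smul]
    have e6 : cr y (v (i + 1)) = -(b / a * cr (v j) y) := by
      rw [e5]; simp only [cr, PiLp.smul_apply, smul_eq_mul]; ring
    rw [e6]
    have : 0 < b / a := by positivity
    nlinarith [not_le.1 hy]

theorem seg_ray {v w : V} {c t : ℝ} (hc : c ≠ 1) (hw : w = c • v)
    (h : (1 ≤ t ∧ t ≤ c) ∨ (c ≤ t ∧ t ≤ 1)) : t • v ∈ segment ℝ v w := by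
  have hc' : c - 1 ≠ 0 := sub_ne_zero.2 hc
  refine ⟨(c - t) / (c - 1), (t - 1) / (c - 1), ?_, ?_, ?_, ?_⟩
  · rcases h with ⟨h1, h2⟩ | ⟨h1, h2⟩
    · exact div_nonneg (by linarith) (by linarith)
    · exact div_nonneg_of_nonpos (by linarith) (by linarith)
  · rcases h with ⟨h1, h2⟩ | ⟨h1, h2⟩
    · exact div_nonneg (by linarith) (by linarith)
    · exact div_nonneg_of_nonpos (by linarith) (by linarith)
  · rw [← add_div, div_eq_one_iff_eq hc']; ring
  · rw [hw, smul_smul, ← add_smul]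
    congr 1
    field_simp
    ring

/-- on the ray of `v k`, the triangle to the right of it being nondegenerate -/
theorem on_ray_right {n : ℕ} {v : ℕ → V} (h : Chain n v) {k : ℕ} (hk : k < n) (hk0 : 1 ≤ k)
    (h0 : 0 < cr (v k) (v (k + 1))) {a : ℝ} (ha : 0 < a) (ha1 : a < 1)
    (hseg : ∀ i < n, a • v k ∉ segment ℝ (v i) (v (i + 1))) :
    a • v k ∈ interior (chainSet n v) := by
  have e1 : k - 1 + 1 = k := by omega
  by_cases h1 : 0 < cr (v (k - 1)) (v (k - 1 + 1))
  · exact two_sides (by omega) hk h1 h0 ha ha1 ha ha1 (by rw [e1]) rfl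
  · have h1' : cr (v (k - 1)) (v (k - 1 + 1)) = 0 :=
      le_antisymm (not_lt.1 h1) (h.mono _ (by omega))
    obtain ⟨c, hc, hc1, hv⟩ := radial h (by omega : k - 1 < n) h1'
    have hk1 : k ≠ 1 := by
      rintro rfl
      exact h1 h.first
    have h2 : 0 < cr (v (k - 2)) (v (k - 2 + 1)) := by
      have h3 := h.alt (k - 2) (by omega)
      have e2 : k - 2 + 1 = k - 1 := by omega
      have e3 : k - 2 + 2 = k - 1 + 1 := by omega
      rw [e2, e3] at h3
      rw [e2]
      exact h3.resolve_right h1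
    have e4 : k - 2 + 1 = k - 1 := by omega
    have hz : a • v k = (a * c) • v (k - 1) := by
      rw [← e1, hv, smul_smul]; simp
    have hac : a * c < 1 := by
      by_contra hh
      apply hseg (k - 1) (by omega)
      rw [hz]
      exact seg_ray hc1 hv (Or.inl ⟨not_lt.1 hh, by nlinarith⟩)
    exact two_sides (by omega) hk h2 h0 (by positivity) hac ha ha1 (by rw [e4]; exact hz) rfl

/-- on the ray of `v (k + 1)`, the triangle to the left of it being nondegenerate -/
theorem on_ray_left {n : ℕ} {v : ℕ → V} (h : Chain n v) {k : ℕ} (hk : k + 1 < n)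
    (h0 : 0 < cr (v k) (v (k + 1))) {a : ℝ} (ha : 0 < a) (ha1 : a < 1)
    (hseg : ∀ i < n, a • v (k + 1) ∉ segment ℝ (v i) (v (i + 1))) :
    a • v (k + 1) ∈ interior (chainSet n v) := by
  by_cases h1 : 0 < cr (v (k + 1)) (v (k + 1 + 1))
  · exact two_sides (by omega) hk h0 h1 ha ha1 ha ha1 rfl rfl
  · have h1' : cr (v (k + 1)) (v (k + 1 + 1)) = 0 :=
      le_antisymm (not_lt.1 h1) (h.mono _ (by omega))
    obtain ⟨c, hc, hc1, hv⟩ := radial h hk h1'
    have hk1 : k + 2 < n := by
      by_contra hh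
      have e : n - 1 = k + 1 := by omega
      have h2 := h.last
      have e' : n = k + 1 + 1 := by omega
      rw [e] at h2
      rw [e'] at h2
      exact h1 h2
    have h2 : 0 < cr (v (k + 2)) (v (k + 2 + 1)) :=
      (h.alt (k + 1) hk1).resolve_left h1
    have hz : a • v (k + 1) = (a / c) • v (k + 2) := by
      rw [show k + 2 = k + 1 + 1 from rfl, hv, smul_smul, div_mul_cancel₀ _ hc.ne']
    have hac : a / c < 1 := by
      by_contra hh
      apply hseg (k + 1) hk
      rw [not_lt, one_le_div hc] at hh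
      exact seg_ray hc1 hv (Or.inr ⟨hh, ha1.le⟩)
    exact two_sides (by omega) hk1 h0 h2 ha ha1 (by positivity) hac rfl hz

/-- every point is in a nondegenerate triangle -/
theorem exists_nondeg {n : ℕ} {v : ℕ → V} (h : Chain n v) {z : V} (hz : z ∈ chainSet n v) :
    ∃ k < n, 0 < cr (v k) (v (k + 1)) ∧ z ∈ tri (v k) (v (k + 1)) := by
  obtain ⟨k, hk, hz⟩ := hz
  by_cases h0 : 0 < cr (v k) (v (k + 1))
  · exact ⟨k, hk, h0, hz⟩
  · have h0' : cr (v k) (v (k + 1)) = 0 := le_antisymm (not_lt.1 h0) (h.mono k hk)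
    obtain ⟨c, hc, hc1, hv⟩ := radial h hk h0'
    have hk1 : k + 1 < n := by
      by_contra hh
      have : k = n - 1 := by omega
      have h2 := h.last
      have h3 : n - 1 + 1 = n := by omega
      rw [this, h3] at h0
      exact h0 h2
    have hk0 : 1 ≤ k := by
      by_contra hh
      have : k = 0 := by omega
      subst this
      exact h0 h.first
    obtain ⟨a, b, ha, hb, hab, rfl⟩ := hz
    have e0 : a • v k + b • v (k + 1) = (a + b * c) • v k := by
      rw [hv, smul_smul, add_smul]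
    by_cases ht : a + b * c ≤ 1
    · have e1 : k - 1 + 1 = k := by omega
      refine ⟨k - 1, by omega, ?_, ?_⟩
      · have h3 := h.alt (k - 1) (by omega)
        have e2 : k - 1 + 2 = k + 1 := by omega
        rw [e1, e2] at h3
        rw [e1]
        exact h3.resolve_right h0
      · refine ⟨0, a + b * c, le_rfl, by positivity, by linarith, ?_⟩
        rw [e1, e0, zero_smul, zero_add]
    · refine ⟨k + 1, hk1, (h.alt k hk1).resolve_left h0, ?_⟩
      rw [not_le] at ht
      have hc2 : a + b * c ≤ c := by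
        rcases le_or_gt c 1 with h1 | h1
        · nlinarith
        · nlinarith
      refine ⟨(a + b * c) / c, 0, by positivity, le_rfl, ?_, ?_⟩
      · rw [add_zero]; exact (div_le_one hc).2 hc2
      · rw [e0, zero_smul, add_zero, hv, smul_smul, div_mul_cancel₀ _ hc.ne']

theorem interior_of {n : ℕ} {v : ℕ → V} (h : Chain n v) {z : V} (hz : z ∈ chainSet n v)
    (hseg : ∀ i < n, z ∉ segment ℝ (v i) (v (i + 1))) (h1 : z ∉ segment ℝ (v n) 0)
    (h2 : z ∉ segment ℝ 0 (v 0)) : z ∈ interior (chainSet n v) := by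
  obtain ⟨k, hk, h0, hz⟩ := exists_nondeg h hz
  obtain ⟨a, b, ha, hb, hab, rfl⟩ := hz
  have hlt : a + b < 1 := by
    refine lt_of_le_of_ne hab fun hh => hseg k hk ⟨a, b, ha, hb, hh, rfl⟩
  rcases ha.eq_or_lt with rfl | ha'
  · rw [zero_smul, zero_add] at *
    have hb' : 0 < b := by
      refine lt_of_le_of_ne hb fun hh => h2 ?_
      rw [← hh, zero_smul]
      exact left_mem_segment ℝ _ _
    have hkn : k + 1 < n := by
      by_contra hh
      have e : k + 1 = n := by omega
      apply h1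
      rw [e]
      exact ⟨b, 1 - b, hb, by linarith, by ring, by simp⟩
    exact on_ray_left h hkn h0 hb' (by linarith) hseg
  rcases hb.eq_or_lt with rfl | hb'
  · rw [zero_smul, add_zero] at *
    have hk0 : 1 ≤ k := by
      by_contra hh
      have e : k = 0 := by omega
      apply h2
      rw [e]
      exact ⟨1 - a, a, by linarith, ha, by ring, by simp⟩
    exact on_ray_right h hk hk0 h0 ha' (by linarith) hseg
  rw [mem_interior_iff_mem_nhds]
  have c1 : ∀ᶠ y in 𝓝 (a • v k + b • v (k + 1)), 0 < cr (v k) y :=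
    ev_right (by rw [cr_comb_right]; positivity)
  have c2 : ∀ᶠ y in 𝓝 (a • v k + b • v (k + 1)), 0 < cr y (v (k + 1)) :=
    ev_left (by rw [cr_comb_left]; positivity)
  have c3 : ∀ᶠ y in 𝓝 (a • v k + b • v (k + 1)),
      cr y (v (k + 1)) + cr (v k) y < cr (v k) (v (k + 1)) :=
    ev_sum (by rw [cr_comb_right, cr_comb_left]; nlinarith)
  filter_upwards [c1, c2, c3] with y d1 d2 d3
  exact ⟨k, hk, (mem_tri h0 y).2 ⟨d2.le, d1.le, d3.le⟩⟩

theorem isClosed_tri (u w : V) : IsClosed (tri u w) := by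
  have e : tri u w = (fun p : ℝ × ℝ => p.1 • u + p.2 • w) ''
      {p : ℝ × ℝ | 0 ≤ p.1 ∧ 0 ≤ p.2 ∧ p.1 + p.2 ≤ 1} := by
    ext z
    constructor
    · rintro ⟨a, b, h1, h2, h3, rfl⟩
      exact ⟨(a, b), ⟨h1, h2, h3⟩, rfl⟩
    · rintro ⟨⟨a, b⟩, ⟨h1, h2, h3⟩, rfl⟩
      exact ⟨a, b, h1, h2, h3, rfl⟩
  rw [e]
  have hK : IsCompact {p : ℝ × ℝ | 0 ≤ p.1 ∧ 0 ≤ p.2 ∧ p.1 + p.2 ≤ 1} := by
    refine (isCompact_Icc (a := ((0 : ℝ), (0 : ℝ))) (b := ((1 : ℝ), (1 : ℝ)))).of_isClosed_subset
      ?_ ?_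
    · exact (isClosed_le continuous_const continuous_fst).inter
        ((isClosed_le continuous_const continuous_snd).inter
          (isClosed_le (continuous_fst.add continuous_snd) continuous_const))
    · rintro ⟨a, b⟩ ⟨h1, h2, h3⟩
      simp only at h1 h2 h3
      exact ⟨⟨h1, h2⟩, ⟨by simp only; linarith, by simp only; linarith⟩⟩
  exact (hK.image (by fun_prop)).isClosed

theorem isClosed_chainSet (n : ℕ) (v : ℕ → V) : IsClosed (chainSet n v) := by
  have e : chainSet n v = ⋃ k ∈ Finset.range n, tri (v k) (v (k + 1)) := by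
    ext z
    simp [chainSet]
  rw [e]
  exact isClosed_biUnion_finset fun k _ => isClosed_tri _ _

theorem seg_sub_tri (u w : V) : segment ℝ u w ⊆ tri u w := by
  rintro z ⟨a, b, ha, hb, hab, rfl⟩
  exact ⟨a, b, ha, hb, hab.le, rfl⟩

end FRONT

open FRONT in
theorem frontier_chain {n : ℕ} {v : ℕ → V} (h : Chain n v) :
    frontier (chainSet n v) = (⋃ i ∈ Finset.range n, segment ℝ (v i) (v (i + 1))) ∪
      (segment ℝ (v n) 0 ∪ segment ℝ 0 (v 0)) := by
  have hcl := isClosed_chainSet n v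
  have hn := h.one_le
  ext z
  simp only [Set.mem_union, Set.mem_iUnion, Finset.mem_range, exists_prop]
  constructor
  · intro hz
    rw [hcl.frontier_eq] at hz
    by_contra hh
    push Not at hh
    exact hz.2 (interior_of h hz.1 hh.1 hh.2.1 hh.2.2)
  · intro hz
    rw [frontier_eq_closure_inter_closure, hcl.closure_eq]
    rcases hz with ⟨i, hi, hz⟩ | hz | hz
    · exact ⟨⟨i, hi, seg_sub_tri _ _ hz⟩, edge_closure h hi hz⟩
    · refine ⟨⟨n - 1, by omega, ?_⟩, right_out h hz⟩
      rw [show n - 1 + 1 = n by omega]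
      obtain ⟨a, b, ha, hb, hab, rfl⟩ := hz
      exact ⟨0, a, le_rfl, ha, by linarith, by simp⟩
    · refine ⟨⟨0, by omega, ?_⟩, left_out h hz⟩
      obtain ⟨a, b, ha, hb, hab, rfl⟩ := hz
      exact ⟨b, 0, hb, le_rfl, by linarith, by simp⟩

end Pool.Agent.XR
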