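import Mathlib
import Pool.Agent.XR.Defs

/-! # X-rays: coprime heights -/

noncomputable section

namespace Pool.Agent.XR

open MeasureTheory

open scoped ENNReal

namespace HEIGHTS

theorem coprime_aux {M n a b : ℕ} (hab : a < b) (h : (b - a) ∣ M) :
    Nat.Coprime (1 + M * (n + a)) (1 + M * (n + b)) := by
  by_contra hc
  rw [Nat.Prime.not_coprime_iff_dvd] at hc
  obtain ⟨p, hp, h1, h2⟩ := hc
  have h3 : p ∣ M * (b - a) := by
    have h4 : 1 + M * (n + b) = (1 + M * (n + a)) + M * (b - a) := by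
      obtain ⟨c, rfl⟩ := Nat.exists_eq_add_of_lt hab
      have : a + c + 1 - a = c + 1 := by omega
      rw [this]
      ring
    rw [h4] at h2
    exact (Nat.dvd_add_right h1).1 h2
  have h5 : p ∣ M := by
    rcases (hp.dvd_mul).1 h3 with h | h'
    · exact h
    · exact h'.trans h
  have h6 : p ∣ 1 := (Nat.dvd_add_left (h5.mul_right _)).1 h1
  exact hp.one_lt.ne' (Nat.dvd_one.1 h6)

end HEIGHTS

open HEIGHTS in
theorem exists_heights (m : ℕ) (A : ℝ) : ∃ (y₀ : ℕ) (l : Fin m × Bool → ℕ),
    A * (1 + ∑ a, (l a : ℝ)) < y₀ ∧ 2 * Fintype.card (E m) ≤ y₀ ∧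
    ∀ ε ε' : E m, ε ≠ ε' → Nat.Coprime (y₀ + ∑ a, if ε a = true then l a else 0)
      (y₀ + ∑ a, if ε' a = true then l a else 0) := by
  classical
  let e := Fintype.equivFin (Fin m × Bool)
  let c : Fin m × Bool → ℕ := fun a => 2 ^ (e a).val
  let S : E m → ℕ := fun ε => ∑ a, if ε a = true then c a else 0
  let C : ℕ := ∑ a, c a
  let M : ℕ := C.factorial
  have hS : ∀ ε, S ε ≤ C := fun ε => Finset.sum_le_sum fun a _ => by
    split_ifs
    · exact le_rfl
    · exact Nat.zero_le _
  have hinj : ∀ ε ε' : E m, S ε = S ε' → ε = ε' := by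
    intro ε ε' h
    have hT : ∀ ε : E m, S ε = ∑ i ∈ (Finset.univ.filter fun a => ε a = true).image
        (fun a => (e a).val), 2 ^ i := by
      intro ε
      rw [Finset.sum_image, Finset.sum_filter]
      intro a _ b _ hab
      exact e.injective (Fin.ext hab)
    rw [hT, hT] at h
    have h1 := Finset.geomSum_injective (n := 2) le_rfl h
    funext a
    have h2 : ∀ ε : E m, (e a).val ∈ (Finset.univ.filter fun a => ε a = true).image
        (fun a => (e a).val) ↔ ε a = true := by
      intro ε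
      rw [Finset.mem_image]
      constructor
      · rintro ⟨b, hb, hab⟩
        rw [← e.injective (Fin.ext hab)]
        exact (Finset.mem_filter.1 hb).2
      · intro h
        exact ⟨a, Finset.mem_filter.2 ⟨Finset.mem_univ _, h⟩, rfl⟩
    have h3 : ε a = true ↔ ε' a = true := by rw [← h2 ε, ← h2 ε', h1]
    rcases hε : ε a with _ | _ <;> rcases hε' : ε' a with _ | _
    · rfl
    · rw [hε, hε'] at h3; simp at h3
    · rw [hε, hε'] at h3; simp at h3
    · rfl
  let l : Fin m × Bool → ℕ := fun a => M * c a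
  obtain ⟨N, hN⟩ := exists_nat_gt (A * (1 + ∑ a, (l a : ℝ)))
  let n₀ : ℕ := N + 2 * Fintype.card (E m)
  have hM : 1 ≤ M := Nat.succ_le_of_lt (Nat.factorial_pos _)
  have hle : n₀ ≤ 1 + M * n₀ := by
    have : 1 * n₀ ≤ M * n₀ := Nat.mul_le_mul_right _ hM
    omega
  have hsum : ∀ ε : E m, (1 + M * n₀) + (∑ a, if ε a = true then l a else 0) = 1 + M * (n₀ + S ε) := by
    intro ε
    have h1 : (∑ a, if ε a = true then l a else 0) = M * S ε := by
      change _ = M * ∑ a, _
      rw [Finset.mul_sum]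
      refine Finset.sum_congr rfl fun a _ => ?_
      split_ifs
      · rfl
      · rw [mul_zero]
    rw [h1]
    ring
  refine ⟨1 + M * n₀, l, ?_, ?_, ?_⟩
  · have h1 : (N : ℝ) ≤ ((1 + M * n₀ : ℕ) : ℝ) := by
      exact_mod_cast (by omega : N ≤ 1 + M * n₀)
    linarith
  · omega
  · intro ε ε' hne
    rw [hsum, hsum]
    have hSne : S ε ≠ S ε' := fun h => hne (hinj ε ε' h)
    rcases Nat.lt_or_gt_of_ne hSne with h | h
    · exact coprime_aux h (Nat.dvd_factorial (by omega) (by have := hS ε'; omega))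
    · exact (coprime_aux h (Nat.dvd_factorial (by omega) (by have := hS ε; omega))).symm

end Pool.Agent.XR
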