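import Mathlib
import Pool.Agent.XR.Defs

/-! # Chinese remainder shift -/

noncomputable section

namespace Pool.Agent.XR

namespace SHIFT

/-- one residue -/
lemma one_residue (K : ℕ) (hK : 1 ≤ K) (Y : ℕ) (hY : 2 * K ≤ Y) (Θ : ℝ) (e : ℕ) :
    ∃ a : ℕ, ∃ j : ℤ, (((K : ℤ) * j + e : ℤ) : ℝ) + 1 / 8 < K * a / Y + Θ ∧
      K * a / Y + Θ < (((K : ℤ) * j + e : ℤ) : ℝ) + 6 / 8 := by
  have hKr : (0 : ℝ) < K := by exact_mod_cast hK
  have hYr : (0 : ℝ) < Y := by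
    have : 0 < Y := by omega
    exact_mod_cast this
  have hKY : (2 : ℝ) * K ≤ Y := by exact_mod_cast hY
  obtain ⟨j, hj⟩ := exists_nat_ge |Θ|
  set c : ℝ := (K : ℝ) * j + e + 1 / 8 - Θ with hc
  have hK1 : (1 : ℝ) ≤ K := by exact_mod_cast hK
  have hc0 : 0 ≤ c := by
    have h1 : Θ ≤ |Θ| := le_abs_self _
    have h2 : (j : ℝ) ≤ K * j := by
      have : (0 : ℝ) ≤ j := Nat.cast_nonneg _
      nlinarith
    have h3 : (0 : ℝ) ≤ e := Nat.cast_nonneg _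
    rw [hc]; linarith
  have hx0 : 0 ≤ c * Y / K := by positivity
  refine ⟨⌊c * Y / K⌋₊ + 1, (j : ℤ), ?_, ?_⟩
  · have h1 : c * Y / K < (⌊c * Y / K⌋₊ : ℝ) + 1 := Nat.lt_floor_add_one _
    have h2 : c < K * ((⌊c * Y / K⌋₊ : ℝ) + 1) / Y := by
      rw [lt_div_iff₀ hYr]
      rw [div_lt_iff₀ hKr] at h1
      linarith
    push_cast
    rw [hc] at h2
    linarith
  · have h1 : (⌊c * Y / K⌋₊ : ℝ) ≤ c * Y / K := Nat.floor_le hx0
    have h2 : K * ((⌊c * Y / K⌋₊ : ℝ) + 1) / Y ≤ c + 1 / 2 := by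
      rw [div_le_iff₀ hYr]
      rw [le_div_iff₀ hKr] at h1
      nlinarith
    push_cast
    rw [hc] at h2
    linarith

end SHIFT

open SHIFT in
theorem exists_shift {ι : Type} [Fintype ι] (K : ℕ) (hK : 1 ≤ K) (Y : ι → ℕ)
    (hY : ∀ i, 2 * K ≤ Y i) (hco : ∀ i j, i ≠ j → Nat.Coprime (Y i) (Y j)) (Θ : ι → ℝ)
    (e : ι → ℕ) (he : ∀ i, e i < K) :
    ∃ n : ℕ, n < ∏ i, Y i ∧ ∀ i, ∃ q : ℤ, q % (K : ℤ) = (e i : ℤ) ∧
      (q : ℝ) + 1 / 8 < K * n / Y i + Θ i ∧ K * n / Y i + Θ i < q + 6 / 8 := by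
  classical
  have h0 := fun i => one_residue K hK (Y i) (hY i) (Θ i) (e i)
  choose a j ha using h0
  have hpos : ∀ i, 0 < Y i := fun i => by have := hY i; omega
  obtain ⟨n0, hn0⟩ := Nat.chineseRemainderOfFinset a Y Finset.univ
    (fun i _ => (hpos i).ne') (fun i _ k _ hik => hco i k hik)
  have hprod : 0 < ∏ i, Y i := Finset.prod_pos (fun i _ => hpos i)
  refine ⟨n0 % ∏ i, Y i, Nat.mod_lt _ hprod, fun i => ?_⟩
  have hmod : (n0 % ∏ i, Y i) ≡ a i [MOD Y i] := by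
    have h1 : (n0 % ∏ i, Y i) ≡ n0 [MOD Y i] :=
      (Nat.mod_modEq n0 (∏ i, Y i)).of_dvd (Finset.dvd_prod_of_mem Y (Finset.mem_univ i))
    exact h1.trans (hn0 i (Finset.mem_univ i))
  set n := n0 % ∏ i, Y i with hn
  obtain ⟨d, hd⟩ := (Nat.modEq_iff_dvd.1 hmod.symm)
  -- (n : ℤ) - a i = Y i * d
  have hYr : (Y i : ℝ) ≠ 0 := by exact_mod_cast (hpos i).ne'
  have hnr : (n : ℝ) = a i + Y i * (d : ℝ) := by
    have : ((n : ℤ) : ℝ) - ((a i : ℤ) : ℝ) = (Y i : ℝ) * (d : ℝ) := by exact_mod_cast hd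
    push_cast at this
    linarith
  have hval : (K : ℝ) * n / Y i = K * a i / Y i + K * d := by
    rw [hnr]; field_simp
  refine ⟨(K : ℤ) * (j i + d) + e i, ?_, ?_, ?_⟩
  · rw [Int.mul_add_emod_self_left]
    exact Int.emod_eq_of_lt (by positivity) (by exact_mod_cast he i)
  · have h := (ha i).1
    rw [hval]
    push_cast at h ⊢
    linarith
  · have h := (ha i).2
    rw [hval]
    push_cast at h ⊢
    linarith

end Pool.Agent.XR
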