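import Mathlib
import Pool.Agent.XR.Defs

/-! # Chains: compactness, interior, star shape -/

noncomputable section

namespace Pool.Agent.XR

open MeasureTheory

open scoped ENNReal

namespace STAR

theorem tri_compact (u w : V) : IsCompact (tri u w) := by
  have h1 : IsCompact {q : ℝ × ℝ | 0 ≤ q.1 ∧ 0 ≤ q.2 ∧ q.1 + q.2 ≤ 1} := by
    have hsub : {q : ℝ × ℝ | 0 ≤ q.1 ∧ 0 ≤ q.2 ∧ q.1 + q.2 ≤ 1} ⊆
        Set.Icc (0 : ℝ) 1 ×ˢ Set.Icc (0 : ℝ) 1 := by
      rintro ⟨a, b⟩ ⟨ha, hb, hab⟩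
      simp only at ha hb hab
      exact ⟨⟨ha, by simp only; linarith⟩, ⟨hb, by simp only; linarith⟩⟩
    refine IsCompact.of_isClosed_subset (isCompact_Icc.prod isCompact_Icc) ?_ hsub
    refine IsClosed.inter (isClosed_le continuous_const continuous_fst) ?_
    exact IsClosed.inter (isClosed_le continuous_const continuous_snd)
      (isClosed_le (continuous_fst.add continuous_snd) continuous_const)
  have h2 : tri u w = (fun q : ℝ × ℝ => q.1 • u + q.2 • w) ''
      {q : ℝ × ℝ | 0 ≤ q.1 ∧ 0 ≤ q.2 ∧ q.1 + q.2 ≤ 1} := by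
    ext z
    constructor
    · rintro ⟨a, b, ha, hb, hab, hz⟩
      exact ⟨(a, b), ⟨ha, hb, hab⟩, hz.symm⟩
    · rintro ⟨⟨a, b⟩, ⟨ha, hb, hab⟩, hz⟩
      exact ⟨a, b, ha, hb, hab, hz.symm⟩
  rw [h2]
  refine h1.image ?_
  fun_prop

theorem continuous_cr_left (w : V) : Continuous fun z : V => cr z w := by
  unfold cr
  fun_prop

theorem continuous_cr_right (u : V) : Continuous fun z : V => cr u z := by
  unfold cr
  fun_prop

theorem mem_tri_of (u w z : V) (hD : 0 < cr u w) (h1 : 0 ≤ cr u z) (h2 : 0 ≤ cr z w)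
    (h3 : cr u z + cr z w ≤ cr u w) : z ∈ tri u w := by
  refine ⟨cr z w / cr u w, cr u z / cr u w, div_nonneg h2 hD.le, div_nonneg h1 hD.le, ?_, ?_⟩
  · rw [← add_div, div_le_one hD]
    linarith
  · have hne : cr u w ≠ 0 := hD.ne'
    have key0 : cr u w * z 0 = cr z w * u 0 + cr u z * w 0 := by
      unfold cr
      ring
    have key1 : cr u w * z 1 = cr z w * u 1 + cr u z * w 1 := by
      unfold cr
      ring
    ext i
    fin_cases i
    · simp only [Fin.zero_eta, PiLp.add_apply, PiLp.smul_apply, smul_eq_mul]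
      field_simp
      linarith
    · simp only [Fin.mk_one, PiLp.add_apply, PiLp.smul_apply, smul_eq_mul]
      field_simp
      linarith

end STAR

theorem chain_compact (n : ℕ) (v : ℕ → V) : IsCompact (chainSet n v) := by
  have h : chainSet n v = ⋃ k ∈ Finset.range n, tri (v k) (v (k + 1)) := by
    ext z
    simp only [chainSet, Set.mem_setOf_eq, Set.mem_iUnion, Finset.mem_range, exists_prop]
  rw [h]
  exact (Finset.range n).isCompact_biUnion fun k _ => STAR.tri_compact _ _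

theorem chain_interior {n : ℕ} {v : ℕ → V} (h : Chain n v) :
    (interior (chainSet n v)).Nonempty := by
  have hD : 0 < cr (v 0) (v 1) := h.first
  refine ⟨(1 / 3 : ℝ) • v 0 + (1 / 3 : ℝ) • v 1, ?_⟩
  rw [mem_interior]
  refine ⟨{z | 0 < cr (v 0) z ∧ 0 < cr z (v 1) ∧ cr (v 0) z + cr z (v 1) < cr (v 0) (v 1)},
    ?_, ?_, ?_⟩
  · rintro z ⟨h1, h2, h3⟩
    exact ⟨0, h.one_le, STAR.mem_tri_of _ _ _ hD h1.le h2.le h3.le⟩
  · refine IsOpen.inter (isOpen_lt continuous_const (STAR.continuous_cr_right _)) ?_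
    exact IsOpen.inter (isOpen_lt continuous_const (STAR.continuous_cr_left _))
      (isOpen_lt ((STAR.continuous_cr_right _).add (STAR.continuous_cr_left _))
        continuous_const)
  · have e1 : cr (v 0) ((1 / 3 : ℝ) • v 0 + (1 / 3 : ℝ) • v 1) = cr (v 0) (v 1) / 3 := by
      simp only [cr, PiLp.add_apply, PiLp.smul_apply, smul_eq_mul]
      ring
    have e2 : cr ((1 / 3 : ℝ) • v 0 + (1 / 3 : ℝ) • v 1) (v 1) = cr (v 0) (v 1) / 3 := by
      simp only [cr, PiLp.add_apply, PiLp.smul_apply, smul_eq_mul]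
      ring
    refine ⟨?_, ?_, ?_⟩
    · rw [e1]; positivity
    · rw [e2]; positivity
    · rw [e1, e2]; linarith

theorem chain_star {n : ℕ} {v : ℕ → V} (h : Chain n v) :
    (0 : V) ∈ chainSet n v ∧ StarConvex ℝ 0 (chainSet n v) := by
  refine ⟨⟨0, h.one_le, 0, 0, le_rfl, le_rfl, by norm_num, by simp⟩, ?_⟩
  rw [starConvex_zero_iff]
  rintro z ⟨k, hk, a, b, ha, hb, hab, rfl⟩ t ht0 ht1
  refine ⟨k, hk, t * a, t * b, mul_nonneg ht0 ha, mul_nonneg ht0 hb, ?_, ?_⟩
  · have : t * (a + b) ≤ 1 * 1 := mul_le_mul ht1 hab (add_nonneg ha hb) zero_le_one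
    linarith [this]
  · rw [smul_add, smul_smul, smul_smul]

end Pool.Agent.XR
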