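import Mathlib
import Pool.Agent.XR.Defs

/-! # Equality of X-rays from the indicator formula -/

noncomputable section

namespace Pool.Agent.XR

open MeasureTheory

open scoped ENNReal

namespace XRAY

theorem al_line (r : ℕ) (x u : V) (t : ℝ) : al r (x + t • u) = al r x + t * al r u := by
  simp only [al, PiLp.add_apply, PiLp.smul_apply, smul_eq_mul]
  ring

theorem be_line (r : ℕ) (x u : V) (t : ℝ) : be r (x + t • u) = be r x + t * be r u := by
  simp only [be, PiLp.add_apply, PiLp.smul_apply, smul_eq_mul]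
  ring

theorem continuous_al (r : ℕ) : Continuous (al r) := by
  unfold al
  fun_prop

theorem continuous_be (r : ℕ) : Continuous (be r) := by
  unfold be
  fun_prop

theorem vol_lt_top (r : ℕ) (x u : V) (hu : be r u ≠ 0) (S : Set V) (M : ℝ)
    (hS : ∀ z ∈ S, |be r z| ≤ M) : volume {t : ℝ | x + t • u ∈ S} < ⊤ := by
  have hsub : {t : ℝ | x + t • u ∈ S} ⊆
      Metric.closedBall (-(be r x / be r u)) (M / |be r u|) := by
    intro t ht
    have h1 := hS _ ht
    rw [be_line] at h1
    rw [Metric.mem_closedBall, Real.dist_eq]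
    have h2 : t - -(be r x / be r u) = (be r x + t * be r u) / be r u := by
      field_simp
      ring
    rw [h2, abs_div]
    exact div_le_div_of_nonneg_right h1 (abs_nonneg _)
  exact lt_of_le_of_lt (measure_mono hsub) measure_closedBall_lt_top

theorem integral_line (x u : V) (S : Set V) (hS : IsClosed S)
    (hfin : volume {t : ℝ | x + t • u ∈ S} < ⊤) :
    Integrable (fun t : ℝ => S.indicator (fun _ => (1 : ℝ)) (x + t • u)) ∧
      ∫ t : ℝ, S.indicator (fun _ => (1 : ℝ)) (x + t • u) =
        (volume {t : ℝ | x + t • u ∈ S}).toReal := by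
  have hc : IsClosed {t : ℝ | x + t • u ∈ S} :=
    hS.preimage (continuous_const.add (continuous_id.smul continuous_const))
  have he : (fun t : ℝ => S.indicator (fun _ => (1 : ℝ)) (x + t • u)) =
      {t : ℝ | x + t • u ∈ S}.indicator (fun _ => (1 : ℝ)) := by
    funext t
    by_cases ht : x + t • u ∈ S
    · rw [Set.indicator_of_mem ht, Set.indicator_of_mem (show t ∈ {t : ℝ | x + t • u ∈ S} from ht)]
    · rw [Set.indicator_of_notMem ht,
        Set.indicator_of_notMem (show t ∉ {t : ℝ | x + t • u ∈ S} from ht)]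
  constructor
  · rw [he, integrable_indicator_iff hc.measurableSet]
    exact integrableOn_const hfin.ne
  · rw [he, integral_indicator_const _ hc.measurableSet]
    simp [Measure.real]

/-- the length of a line in a trapezoid -/
theorem vol_trap (r : ℕ) (x u : V) (hu : be r u ≠ 0) (s y σ₀ σ₁ : ℝ) (hy : 0 < y) :
    (volume {t : ℝ | x + t • u ∈ trap r s y σ₀ σ₁}).toReal =
      y * ((volume {l : ℝ | 1 ≤ l ∧ l ≤ 2 ∧
        ((s - al r u / be r u * y) + σ₀) * l ≤ al r x - al r u / be r u * be r x ∧
        al r x - al r u / be r u * be r x ≤ ((s - al r u / be r u * y) + σ₁) * l}).toReal /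
        |be r u|) := by
  set Λ : Set ℝ := {l : ℝ | 1 ≤ l ∧ l ≤ 2 ∧
        ((s - al r u / be r u * y) + σ₀) * l ≤ al r x - al r u / be r u * be r x ∧
        al r x - al r u / be r u * be r x ≤ ((s - al r u / be r u * y) + σ₁) * l} with hΛ
  have hset : {t : ℝ | x + t • u ∈ trap r s y σ₀ σ₁} =
      (fun t => be r u / y * t) ⁻¹' ((fun t => t + be r x / y) ⁻¹' Λ) := by
    ext t
    have hyl : y * (be r u / y * t + be r x / y) = be r x + t * be r u := by
      field_simp
      ring
    have hal : al r x + t * al r u =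
        (al r x - al r u / be r u * be r x) +
          al r u / be r u * (y * (be r u / y * t + be r x / y)) := by
      rw [hyl]
      field_simp
      ring
    simp only [Set.mem_setOf_eq, trap, Set.mem_preimage, hΛ, al_line, be_line]
    rw [hal, ← hyl]
    set l := be r u / y * t + be r x / y
    set c := al r x - al r u / be r u * be r x
    set κ := al r u / be r u
    have e1 : y ≤ y * l ↔ 1 ≤ l := by
      constructor
      · intro h
        by_contra hl
        have := mul_lt_mul_of_pos_left (not_le.mp hl) hy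
        linarith
      · intro h
        have := mul_le_mul_of_nonneg_left h hy.le
        linarith
    have e2 : y * l ≤ 2 * y ↔ l ≤ 2 := by
      constructor
      · intro h
        by_contra hl
        have := mul_lt_mul_of_pos_left (not_le.mp hl) hy
        linarith
      · intro h
        have := mul_le_mul_of_nonneg_left h hy.le
        linarith
    have e3 : (s + σ₀) * (y * l) ≤ y * (c + κ * (y * l)) ↔ (s - κ * y + σ₀) * l ≤ c := by
      have h1 : (s + σ₀) * (y * l) - y * (c + κ * (y * l)) =
          y * ((s - κ * y + σ₀) * l - c) := by ring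
      constructor
      · intro h
        by_contra hl
        have := mul_pos hy (sub_pos.mpr (not_le.mp hl))
        linarith
      · intro h
        have := mul_nonneg hy.le (sub_nonneg.mpr h)
        linarith
    have e4 : y * (c + κ * (y * l)) ≤ (s + σ₁) * (y * l) ↔ c ≤ (s - κ * y + σ₁) * l := by
      have h1 : (s + σ₁) * (y * l) - y * (c + κ * (y * l)) =
          y * ((s - κ * y + σ₁) * l - c) := by ring
      constructor
      · intro h
        by_contra hl
        have := mul_pos hy (sub_pos.mpr (not_le.mp hl))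
        linarith
      · intro h
        have := mul_nonneg hy.le (sub_nonneg.mpr h)
        linarith
    rw [e1, e2, e3, e4]
  have hb : be r u / y ≠ 0 := div_ne_zero hu hy.ne'
  rw [hset, Real.volume_preimage_mul_left hb, measure_preimage_add_right, ENNReal.toReal_mul,
    ENNReal.toReal_ofReal (abs_nonneg _), inv_div, abs_div, abs_of_pos hy]
  ring

theorem unique_root {a b c d : ℝ} (h : a ≠ b) :
    {t : ℝ | c + t * a = d + t * b} ⊆ {(d - c) / (a - b)} := by
  intro t ht
  have ht' : c + t * a = d + t * b := ht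
  have h1 : a - b ≠ 0 := sub_ne_zero.mpr h
  rw [Set.mem_singleton_iff, eq_div_iff h1]
  linarith

end XRAY

theorem xray_eq {P P' : Set V} (hP : IsCompact P) (hP' : IsCompact P') {ι : Type} [Fintype ι]
    (r : ℕ) (s y sgn : ι → ℝ) (σ₀ σ₁ : ℝ) (hy : ∀ i, 0 < y i)
    (hform : ∀ z, (∀ i, y i * al r z ≠ (s i + σ₀) * be r z ∧
      y i * al r z ≠ (s i + σ₁) * be r z ∧ be r z ≠ y i ∧ be r z ≠ 2 * y i) →
      P'.indicator (fun _ => (1 : ℝ)) z = P.indicator (fun _ => (1 : ℝ)) z +
        ∑ i, sgn i * (trap r (s i) (y i) σ₀ σ₁).indicator (fun _ => (1 : ℝ)) z)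
    (u : V) (hu : be r u ≠ 0) (hu0 : ∀ i, y i * al r u ≠ (s i + σ₀) * be r u)
    (hu1 : ∀ i, y i * al r u ≠ (s i + σ₁) * be r u)
    (hsum : ∀ F : ℝ → ℝ, ∑ i, sgn i * (y i * F (s i - al r u / be r u * y i)) = 0) (x : V) :
    xray u P' x = xray u P x := by
  classical
  have hcpt : ∀ S : Set V, IsCompact S → volume {t : ℝ | x + t • u ∈ S} < ⊤ := by
    intro S hS
    obtain ⟨M, hM⟩ := (hS.image (XRAY.continuous_be r)).isBounded.exists_norm_le
    exact XRAY.vol_lt_top r x u hu S M fun z hz => by
      have := hM _ ⟨z, hz, rfl⟩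
      rwa [Real.norm_eq_abs] at this
  have hfP := hcpt P hP
  have hfP' := hcpt P' hP'
  have hclT : ∀ i, IsClosed (trap r (s i) (y i) σ₀ σ₁) := by
    intro i
    unfold trap
    have c1 := XRAY.continuous_be r
    have c2 := XRAY.continuous_al r
    refine IsClosed.inter (isClosed_le continuous_const c1) ?_
    refine IsClosed.inter (isClosed_le c1 continuous_const) ?_
    exact IsClosed.inter (isClosed_le (continuous_const.mul c1) (continuous_const.mul c2))
      (isClosed_le (continuous_const.mul c2) (continuous_const.mul c1))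
  have hfT : ∀ i, volume {t : ℝ | x + t • u ∈ trap r (s i) (y i) σ₀ σ₁} < ⊤ := by
    intro i
    refine XRAY.vol_lt_top r x u hu _ (2 * y i) ?_
    rintro z ⟨h1, h2, -⟩
    rw [abs_of_nonneg (le_trans (hy i).le h1)]
    exact h2
  obtain ⟨iP, eP⟩ := XRAY.integral_line x u P hP.isClosed hfP
  obtain ⟨iP', eP'⟩ := XRAY.integral_line x u P' hP'.isClosed hfP'
  have hT := fun i => XRAY.integral_line x u _ (hclT i) (hfT i)
  -- the exceptional parameters
  have hbad : ∀ᵐ t : ℝ, ∀ i, y i * al r (x + t • u) ≠ (s i + σ₀) * be r (x + t • u) ∧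
      y i * al r (x + t • u) ≠ (s i + σ₁) * be r (x + t • u) ∧ be r (x + t • u) ≠ y i ∧
      be r (x + t • u) ≠ 2 * y i := by
    rw [ae_all_iff]
    intro i
    have key : ∀ (a b c d : ℝ), a ≠ b → ∀ᵐ t : ℝ, ¬ (c + t * a = d + t * b) := by
      intro a b c d hab
      rw [ae_iff]
      simp only [not_not]
      exact measure_mono_null (XRAY.unique_root hab) (by simp)
    filter_upwards [key (y i * al r u) ((s i + σ₀) * be r u) (y i * al r x)
        ((s i + σ₀) * be r x) (hu0 i),
      key (y i * al r u) ((s i + σ₁) * be r u) (y i * al r x) ((s i + σ₁) * be r x) (hu1 i),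
      key (be r u) 0 (be r x) (y i) hu, key (be r u) 0 (be r x) (2 * y i) hu]
      with t h1 h2 h3 h4
    rw [XRAY.al_line, XRAY.be_line]
    refine ⟨fun h => h1 (by linarith), fun h => h2 (by linarith), fun h => h3 (by linarith),
      fun h => h4 (by linarith)⟩
  have hint : ∫ t : ℝ, P'.indicator (fun _ => (1 : ℝ)) (x + t • u) =
      (∫ t : ℝ, P.indicator (fun _ => (1 : ℝ)) (x + t • u)) +
        ∑ i, sgn i * ∫ t : ℝ, (trap r (s i) (y i) σ₀ σ₁).indicator (fun _ => (1 : ℝ))
          (x + t • u) := by
    have h1 : ∫ t : ℝ, P'.indicator (fun _ => (1 : ℝ)) (x + t • u) =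
        ∫ t : ℝ, (P.indicator (fun _ => (1 : ℝ)) (x + t • u) +
          ∑ i, sgn i * (trap r (s i) (y i) σ₀ σ₁).indicator (fun _ => (1 : ℝ)) (x + t • u)) := by
      refine integral_congr_ae ?_
      filter_upwards [hbad] with t ht
      exact hform _ ht
    rw [h1, integral_add iP (integrable_finset_sum _ fun i _ => (hT i).1.const_mul _),
      integral_finset_sum _ fun i _ => (hT i).1.const_mul _]
    congr 1
    refine Finset.sum_congr rfl fun i _ => ?_
    rw [integral_const_mul]
  have hzero : ∑ i, sgn i * ∫ t : ℝ, (trap r (s i) (y i) σ₀ σ₁).indicator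
      (fun _ => (1 : ℝ)) (x + t • u) = 0 := by
    rw [← hsum fun κ => (volume {l : ℝ | 1 ≤ l ∧ l ≤ 2 ∧
      (κ + σ₀) * l ≤ al r x - al r u / be r u * be r x ∧
      al r x - al r u / be r u * be r x ≤ (κ + σ₁) * l}).toReal / |be r u|]
    refine Finset.sum_congr rfl fun i _ => ?_
    rw [(hT i).2, XRAY.vol_trap r x u hu _ _ _ _ (hy i)]
  rw [eP, eP', hzero, add_zero] at hint
  unfold xray
  exact (ENNReal.toReal_eq_toReal_iff' hfP'.ne hfP.ne).mp hint

end Pool.Agent.XR
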