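import Mathlib
import Pool.Agent.XR.Defs
import Pool.Agent.XR.FRONT
import Pool.Agent.XR.CURVE
import Pool.Agent.XR.STAR
import Pool.Agent.XR.FRAME
import Pool.Agent.XR.FCHOICE
import Pool.Agent.XR.ORDER
import Pool.Agent.XR.DIFF
import Pool.Agent.XR.XRAY
import Pool.Agent.XR.CUBE
import Pool.Agent.XR.HEIGHTS
import Pool.Agent.XR.SHIFT

/-! # X-rays of star-shaped polygons: assembly -/

noncomputable section

namespace Pool.Agent.XR

open MeasureTheory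

open scoped ENNReal

theorem starPolygon_cells {R Nc : ℕ} {ρ : ℝ} {C : ℕ → Cell} (h : CellsOk R Nc ρ C) :
    StarPolygon (cellPoly R Nc C) := by
  have hc := chain_cells h
  exact ⟨isCurve_of_frontier hc (frontier_chain hc), chain_compact _ _, chain_interior hc, 0,
    (chain_star hc).1, (chain_star hc).2⟩

namespace MAIN

/-- the number of colours -/
def KK (m : ℕ) : ℕ := Fintype.card (E m)

theorem KK_pos (m : ℕ) : 0 < KK m := Fintype.card_pos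

/-- the heights -/
def hgt {m : ℕ} (y₀ : ℕ) (l : Fin m × Bool → ℕ) (ε : E m) : ℕ :=
  y₀ + ∑ a, if ε a = true then l a else 0

theorem hgt_cast {m : ℕ} (y₀ : ℕ) (l : Fin m × Bool → ℕ) (ε : E m) :
    (hgt y₀ l ε : ℝ) = y₀ + ss (fun a => (l a : ℝ)) ε := by
  unfold hgt ss
  push_cast
  rfl

/-- the colour of a cell -/
def col (m : ℕ) (j : ℕ) : E m :=
  (Fintype.equivFin (E m)).symm ⟨j % KK m, Nat.mod_lt _ (KK_pos m)⟩

/-- the number of a colour -/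
def num {m : ℕ} (ε : E m) : ℕ := (Fintype.equivFin (E m) ε : ℕ)

theorem num_lt {m : ℕ} (ε : E m) : num ε < KK m := (Fintype.equivFin (E m) ε).2

theorem col_eq {m : ℕ} {j : ℕ} {ε : E m} (h : j % KK m = num ε) : col m j = ε := by
  unfold col
  rw [Equiv.symm_apply_eq]
  exact Fin.ext h

/-- the height of the boundary of the basic polygon -/
def bh {m : ℕ} (y₀ : ℕ) (l : Fin m × Bool → ℕ) (ε : E m) : ℝ :=
  if sg ε = 1 then (hgt y₀ l ε : ℝ) else 2 * (hgt y₀ l ε : ℝ)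

/-- the height of the boundary in the teeth and notches -/
def bk {m : ℕ} (y₀ : ℕ) (l : Fin m × Bool → ℕ) (ε : E m) : ℝ :=
  if sg ε = 1 then 2 * (hgt y₀ l ε : ℝ) else (hgt y₀ l ε : ℝ)

/-- the cells of the basic polygon -/
def bcell {m : ℕ} (y₀ : ℕ) (l : Fin m × Bool → ℕ) (η : ℝ) (N : ℕ) (j : ℕ) : Cell where
  a := (((j % (2 * N) : ℕ) : ℝ) - N + 1 / 8) * η
  b := (((j % (2 * N) : ℕ) : ℝ) - N + 6 / 8) * η
  h := bh y₀ l (col m j)
  md := false
  p := (((j % (2 * N) : ℕ) : ℝ) - N + 2 / 8) * η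
  q := (((j % (2 * N) : ℕ) : ℝ) - N + 3 / 8) * η
  k := bh y₀ l (col m j) + 1

/-- the cells of the modified polygon -/
def mcell {m : ℕ} (y₀ : ℕ) (l : Fin m × Bool → ℕ) (η : ℝ) (N : ℕ) (c : E m → ℕ) (s : E m → ℝ)
    (σ₀ σ₁ : ℝ) (j : ℕ) : Cell :=
  if c (col m j) = j then
    { a := (((j % (2 * N) : ℕ) : ℝ) - N + 1 / 8) * η
      b := (((j % (2 * N) : ℕ) : ℝ) - N + 6 / 8) * η
      h := bh y₀ l (col m j)
      md := true
      p := (s (col m j) + σ₀) / hgt y₀ l (col m j)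
      q := (s (col m j) + σ₁) / hgt y₀ l (col m j)
      k := bk y₀ l (col m j) }
  else bcell y₀ l η N j

theorem mcell_a {m : ℕ} (y₀ : ℕ) (l : Fin m × Bool → ℕ) (η : ℝ) (N : ℕ) (c : E m → ℕ)
    (s : E m → ℝ) (σ₀ σ₁ : ℝ) (j : ℕ) :
    (mcell y₀ l η N c s σ₀ σ₁ j).a = (bcell y₀ l η N j).a := by
  unfold mcell
  split_ifs <;> rfl

theorem mcell_b {m : ℕ} (y₀ : ℕ) (l : Fin m × Bool → ℕ) (η : ℝ) (N : ℕ) (c : E m → ℕ)
    (s : E m → ℝ) (σ₀ σ₁ : ℝ) (j : ℕ) :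
    (mcell y₀ l η N c s σ₀ σ₁ j).b = (bcell y₀ l η N j).b := by
  unfold mcell
  split_ifs <;> rfl

theorem mcell_h {m : ℕ} (y₀ : ℕ) (l : Fin m × Bool → ℕ) (η : ℝ) (N : ℕ) (c : E m → ℕ)
    (s : E m → ℝ) (σ₀ σ₁ : ℝ) (j : ℕ) :
    (mcell y₀ l η N c s σ₀ σ₁ j).h = (bcell y₀ l η N j).h := by
  unfold mcell
  split_ifs <;> rfl

section ok

variable {m : ℕ} {y₀ : ℕ} {l : Fin m × Bool → ℕ} {η ρ : ℝ} {N : ℕ}

theorem hgt_pos (hy : 1 ≤ y₀) (ε : E m) : (0 : ℝ) < hgt y₀ l ε := by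
  have : 0 < hgt y₀ l ε := by unfold hgt; omega
  exact_mod_cast this

theorem bh_pos (hy : 1 ≤ y₀) (ε : E m) : 0 < bh y₀ l ε := by
  have := hgt_pos (l := l) hy ε
  unfold bh
  split_ifs <;> linarith

theorem bk_pos (hy : 1 ≤ y₀) (ε : E m) : 0 < bk y₀ l ε := by
  have := hgt_pos (l := l) hy ε
  unfold bk
  split_ifs <;> linarith

theorem bh_ne_bk (hy : 1 ≤ y₀) (ε : E m) : bh y₀ l ε ≠ bk y₀ l ε := by
  have := hgt_pos (l := l) hy ε
  unfold bk bh
  split_ifs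
  · intro h; linarith
  · intro h; linarith

theorem base_lo (hη : 0 < η) (hN : 1 ≤ N) (hρη : η * N = ρ) (j : ℕ) :
    -ρ ≤ (bcell y₀ l η N j).a := by
  show -ρ ≤ (((j % (2 * N) : ℕ) : ℝ) - N + 1 / 8) * η
  have h1 : (0 : ℝ) ≤ ((j % (2 * N) : ℕ) : ℝ) := Nat.cast_nonneg _
  nlinarith

theorem base_hi (hη : 0 < η) (hN : 1 ≤ N) (hρη : η * N = ρ) (j : ℕ) :
    (bcell y₀ l η N j).b ≤ ρ := by
  show (((j % (2 * N) : ℕ) : ℝ) - N + 6 / 8) * η ≤ ρ
  have h1 : j % (2 * N) + 1 ≤ 2 * N := Nat.mod_lt _ (by omega)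
  have h2 : ((j % (2 * N) : ℕ) : ℝ) + 1 ≤ 2 * N := by exact_mod_cast h1
  nlinarith

theorem base_lt (hη : 0 < η) (hN : 1 ≤ N) (j : ℕ) (hj : j / (2 * N) = (j + 1) / (2 * N)) :
    (bcell y₀ l η N j).b < (bcell y₀ l η N (j + 1)).a := by
  show (((j % (2 * N) : ℕ) : ℝ) - N + 6 / 8) * η <
    ((((j + 1) % (2 * N) : ℕ) : ℝ) - N + 1 / 8) * η
  have h1 : (j + 1) % (2 * N) = j % (2 * N) + 1 := by
    have e1 := Nat.div_add_mod j (2 * N)
    have e2 := Nat.div_add_mod (j + 1) (2 * N)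
    rw [← hj] at e2
    omega
  rw [h1]
  push_cast
  nlinarith

theorem bcell_ok (hy : 1 ≤ y₀) (hη : 0 < η) (hN : 1 ≤ N) (hρη : η * N = ρ) (hρ : 0 < ρ)
    (hρ' : 4 * (1 + ((m + 1 : ℕ) : ℝ) ^ 2) * ρ ≤ 1) :
    CellsOk (m + 1) (2 * N) ρ (bcell y₀ l η N) where
  hR := by omega
  hN := by omega
  hρ := hρ
  hρ' := hρ'
  ok := by
    intro c _
    have h0 := bh_pos (l := l) hy (col m c)
    refine ⟨?_, ?_, ?_, h0, ?_, ?_⟩
    · show (((c % (2 * N) : ℕ) : ℝ) - N + 1 / 8) * η < (((c % (2 * N) : ℕ) : ℝ) - N + 2 / 8) * η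
      nlinarith
    · show (((c % (2 * N) : ℕ) : ℝ) - N + 2 / 8) * η < (((c % (2 * N) : ℕ) : ℝ) - N + 3 / 8) * η
      nlinarith
    · show (((c % (2 * N) : ℕ) : ℝ) - N + 3 / 8) * η < (((c % (2 * N) : ℕ) : ℝ) - N + 6 / 8) * η
      nlinarith
    · show 0 < bh y₀ l (col m c) + 1
      linarith
    · show bh y₀ l (col m c) ≠ bh y₀ l (col m c) + 1
      intro h
      linarith
  lo := fun c _ => base_lo hη hN hρη c
  hi := fun c _ => base_hi hη hN hρη c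
  lt := fun c _ h => base_lt hη hN c h

theorem mcell_ok (hy : 1 ≤ y₀) (hη : 0 < η) (hN : 1 ≤ N) (hρη : η * N = ρ) (hρ : 0 < ρ)
    (hρ' : 4 * (1 + ((m + 1 : ℕ) : ℝ) ^ 2) * ρ ≤ 1) {c : E m → ℕ} {s : E m → ℝ} {σ₀ σ₁ : ℝ}
    (hlo : ∀ ε, (((c ε % (2 * N) : ℕ) : ℝ) - N + 1 / 8) * η < (s ε + σ₀) / hgt y₀ l ε)
    (hσ : σ₀ < σ₁)
    (hhi : ∀ ε, (s ε + σ₁) / hgt y₀ l ε < (((c ε % (2 * N) : ℕ) : ℝ) - N + 6 / 8) * η) :
    CellsOk (m + 1) (2 * N) ρ (mcell y₀ l η N c s σ₀ σ₁) where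
  hR := by omega
  hN := by omega
  hρ := hρ
  hρ' := hρ'
  ok := by
    intro j hj
    by_cases hc : c (col m j) = j
    · have h1 := hlo (col m j)
      have h2 := hhi (col m j)
      rw [hc] at h1 h2
      unfold mcell
      rw [if_pos hc]
      refine ⟨h1, ?_, h2, bh_pos hy _, bk_pos hy _, bh_ne_bk hy _⟩
      show (s (col m j) + σ₀) / hgt y₀ l (col m j) < (s (col m j) + σ₁) / hgt y₀ l (col m j)
      have := hgt_pos (l := l) hy (col m j)
      exact div_lt_div_of_pos_right (by linarith) this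
    · unfold mcell
      rw [if_neg hc]
      exact (bcell_ok hy hη hN hρη hρ hρ').ok j hj
  lo := fun j _ => by rw [mcell_a]; exact base_lo hη hN hρη j
  hi := fun j _ => by rw [mcell_b]; exact base_hi hη hN hρη j
  lt := fun j _ h => by rw [mcell_a, mcell_b]; exact base_lt hη hN j h

end ok

theorem exists_two {B : Set ℝ} (hB : B.Finite) {μ : ℝ} (hμ : 0 < μ) :
    ∃ σ₀ σ₁ : ℝ, 0 < σ₀ ∧ σ₀ < σ₁ ∧ σ₁ < μ ∧ σ₀ ∉ B ∧ σ₁ ∉ B := by
  have h1 : ∀ a b : ℝ, a < b → ∃ x, a < x ∧ x < b ∧ x ∉ B := by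
    intro a b hab
    have h2 : (Set.Ioo a b \ B).Infinite := (Set.Ioo_infinite hab).sdiff hB
    obtain ⟨x, hx⟩ := h2.nonempty
    exact ⟨x, hx.1.1, hx.1.2, hx.2⟩
  obtain ⟨x, hx1, hx2, hx3⟩ := h1 0 μ hμ
  obtain ⟨y, hy1, hy2, hy3⟩ := h1 x μ hx2
  exact ⟨x, y, hx1, hy1, hy2, hx3, hy3⟩

theorem exists_lower {ι : Type} [Finite ι] [Nonempty ι] (f : ι → ℝ) (hf : ∀ i, 0 < f i) :
    ∃ μ : ℝ, 0 < μ ∧ ∀ i, μ ≤ f i := by
  obtain ⟨i, hi⟩ := Finite.exists_min f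
  exact ⟨f i, hf i, hi⟩

theorem ss_abs {m : ℕ} (l : Fin m × Bool → ℕ) (t : Fin m → ℝ) {τ : ℝ} (ht : ∀ j, |t j| ≤ τ)
    (ε : E m) : |ss (fun a => (l a : ℝ) * t a.1) ε| ≤ τ * ∑ a, (l a : ℝ) := by
  unfold ss
  refine (Finset.abs_sum_le_sum_abs _ _).trans ?_
  rw [Finset.mul_sum]
  refine Finset.sum_le_sum fun a _ => ?_
  have h0 : 0 ≤ τ := (abs_nonneg _).trans (ht a.1)
  have h1 : (0 : ℝ) ≤ l a := Nat.cast_nonneg _
  split_ifs
  · rw [abs_mul, abs_of_nonneg h1, mul_comm]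
    exact mul_le_mul_of_nonneg_right (ht a.1) h1
  · rw [abs_zero]
    exact mul_nonneg h0 h1

end MAIN

open MAIN in
/-- Q2, for families of directions -/
theorem exists_polygon (m : ℕ) : ∃ P : Set V, StarPolygon P ∧ ∀ d : Fin m → V,
    (∀ j, ‖d j‖ = 1) → ∃ P' : Set V, StarPolygon P' ∧ P' ≠ P ∧
      ∀ j x, xray (d j) P' x = xray (d j) P x := by
  -- parameters
  set ρ : ℝ := 1 / (4 * (1 + ((m + 1 : ℕ) : ℝ) ^ 2)) with hρdef
  have hden : (0 : ℝ) < 4 * (1 + ((m + 1 : ℕ) : ℝ) ^ 2) := by positivity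
  have hρ : 0 < ρ := by rw [hρdef]; positivity
  have hρ' : 4 * (1 + ((m + 1 : ℕ) : ℝ) ^ 2) * ρ ≤ 1 := by
    rw [hρdef, mul_one_div, div_self hden.ne']
  have hρ1 : ρ ≤ 1 := by
    have : (1 : ℝ) ≤ 4 * (1 + ((m + 1 : ℕ) : ℝ) ^ 2) := by nlinarith [sq_nonneg (((m + 1 : ℕ) : ℝ))]
    nlinarith
  set τ : ℝ := (1 + m) * (2 * m + 3) with hτdef
  have hτ : 0 ≤ τ := by rw [hτdef]; positivity
  obtain ⟨y₀, l, hA, hK2, hco⟩ := exists_heights m ((1 + τ) / ρ)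
  have hK : 1 ≤ KK m := KK_pos m
  have hy1 : 1 ≤ y₀ := by
    have : 0 < Fintype.card (E m) := KK_pos m
    omega
  have hY2 : ∀ ε : E m, 2 * KK m ≤ hgt y₀ l ε := by
    intro ε
    have : y₀ ≤ hgt y₀ l ε := Nat.le_add_right _ _
    exact hK2.trans this
  have hYpos : ∀ ε : E m, (0 : ℝ) < hgt y₀ l ε := hgt_pos hy1
  set Pd : ℕ := ∏ ε : E m, hgt y₀ l ε with hPddef
  have hPd : 1 ≤ Pd := by
    have : 0 < Pd := Finset.prod_pos fun ε _ => by
      have := hY2 ε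
      omega
    exact this
  set N : ℕ := KK m * Pd with hNdef
  have hN : 1 ≤ N := Nat.mul_pos hK hPd
  have hNr : (0 : ℝ) < N := by exact_mod_cast hN
  set η : ℝ := ρ / N with hηdef
  have hη : 0 < η := div_pos hρ hNr
  have hρη : η * N = ρ := div_mul_cancel₀ _ hNr.ne'
  have hAl : ρ + τ * ∑ a, (l a : ℝ) < ρ * y₀ := by
    have h1 : (1 + τ) / ρ * (1 + ∑ a, (l a : ℝ)) * ρ < y₀ * ρ := mul_lt_mul_of_pos_right hA hρ
    have h2 : (1 + τ) / ρ * (1 + ∑ a, (l a : ℝ)) * ρ = (1 + τ) * (1 + ∑ a, (l a : ℝ)) := by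
      field_simp
    rw [h2] at h1
    have h3 : (0 : ℝ) ≤ ∑ a, (l a : ℝ) := Finset.sum_nonneg fun a _ => Nat.cast_nonneg _
    nlinarith
  refine ⟨cellPoly (m + 1) (2 * N) (bcell y₀ l η N),
    starPolygon_cells (bcell_ok hy1 hη hN hρη hρ hρ'), ?_⟩
  intro d hd
  obtain ⟨r, hr, hfr⟩ := exists_frame m d hd
  set t : Fin m → ℝ := fun j => al r (d j) / be r (d j) with htdef
  have ht : ∀ j, |t j| ≤ τ := fun j => (hfr j).2
  obtain ⟨n, hn, hq⟩ := exists_shift (KK m) hK (fun ε : E m => hgt y₀ l ε) hY2 hco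
    (fun ε => ss (fun a => (l a : ℝ) * t a.1) ε / (η * hgt y₀ l ε)) (fun ε => num ε) num_lt
  choose q hqm hq1 hq2 using hq
  -- positions
  set s : E m → ℝ := fun ε => η * KK m * n + ss (fun a => (l a : ℝ) * t a.1) ε with hsdef
  have hsdiv : ∀ ε, s ε / hgt y₀ l ε = η * (KK m * n / hgt y₀ l ε +
      ss (fun a => (l a : ℝ) * t a.1) ε / (η * hgt y₀ l ε)) := by
    intro ε
    have h1 := (hYpos ε).ne'
    have h2 := hη.ne'
    simp only [hsdef]
    field_simp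
  have hlo0 : ∀ ε, ((q ε : ℝ) + 1 / 8) * η < s ε / hgt y₀ l ε := by
    intro ε
    rw [hsdiv ε, mul_comm]
    exact mul_lt_mul_of_pos_left (hq1 ε) hη
  have hhi0 : ∀ ε, s ε / hgt y₀ l ε < ((q ε : ℝ) + 6 / 8) * η := by
    intro ε
    rw [hsdiv ε, mul_comm ((q ε : ℝ) + 6 / 8)]
    exact mul_lt_mul_of_pos_left (hq2 ε) hη
  have hsabs : ∀ ε, |s ε / hgt y₀ l ε| < ρ := by
    intro ε
    rw [abs_div, abs_of_pos (hYpos ε), div_lt_iff₀ (hYpos ε)]
    have h1 := ss_abs l t ht ε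
    have h2 : |η * KK m * n| ≤ ρ := by
      have h3 : (0 : ℝ) ≤ η * KK m * n := by positivity
      rw [abs_of_nonneg h3, ← hρη]
      have h4 : (n : ℝ) ≤ Pd := by exact_mod_cast hn.le
      have h5 : (N : ℝ) = KK m * Pd := by rw [hNdef]; push_cast; ring
      rw [h5, mul_assoc]
      exact mul_le_mul_of_nonneg_left (mul_le_mul_of_nonneg_left h4 (Nat.cast_nonneg _)) hη.le
    have h6 : (y₀ : ℝ) ≤ hgt y₀ l ε := by
      have : y₀ ≤ hgt y₀ l ε := Nat.le_add_right _ _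
      exact_mod_cast this
    calc |s ε| ≤ |η * KK m * n| + |ss (fun a => (l a : ℝ) * t a.1) ε| := abs_add_le _ _
      _ ≤ ρ + τ * ∑ a, (l a : ℝ) := add_le_add h2 h1
      _ < ρ * y₀ := hAl
      _ ≤ ρ * hgt y₀ l ε := mul_le_mul_of_nonneg_left h6 hρ.le
  have hqlt : ∀ ε, q ε < N := by
    intro ε
    have h1 := (abs_lt.1 (hsabs ε)).2
    have h2 := hlo0 ε
    have h3 : ((q ε : ℝ) + 1 / 8) * η < N * η := by rw [mul_comm (N : ℝ), hρη]; linarith
    have h4 := lt_of_mul_lt_mul_right h3 hη.le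
    have h5 : (q ε : ℝ) < (N : ℤ) := by push_cast; linarith
    exact_mod_cast h5
  have hqge : ∀ ε, -(N : ℤ) ≤ q ε := by
    intro ε
    have h1 := (abs_lt.1 (hsabs ε)).1
    have h2 := hhi0 ε
    have h3 : (-(N : ℝ)) * η < ((q ε : ℝ) + 6 / 8) * η := by
      have : (-(N : ℝ)) * η = -ρ := by rw [← hρη]; ring
      rw [this]; linarith
    have h4 := lt_of_mul_lt_mul_right h3 hη.le
    have h5 : ((-(N : ℤ) : ℤ) : ℝ) < ((q ε + 1 : ℤ) : ℝ) := by push_cast; linarith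
    have h6 : (-(N : ℤ)) < q ε + 1 := by exact_mod_cast h5
    omega
  set q' : E m → ℕ := fun ε => (q ε + N).toNat with hq'def
  have hq'z : ∀ ε, ((q' ε : ℕ) : ℤ) = q ε + N := fun ε => Int.toNat_of_nonneg (by
    have := hqge ε
    omega)
  have hq'lt : ∀ ε, q' ε < 2 * N := by
    intro ε
    have h1 := hq'z ε
    have h2 := hqlt ε
    omega
  have hq'r : ∀ ε, ((q' ε : ℕ) : ℝ) - N = q ε := by
    intro ε
    have h1 : (((q' ε : ℕ) : ℤ) : ℝ) = ((q ε + N : ℤ) : ℝ) := by rw [hq'z ε]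
    push_cast at h1
    rw [h1]
    ring
  set c : E m → ℕ := fun ε => r * (2 * N) + q' ε with hcdef
  have hcmod : ∀ ε, c ε % (2 * N) = q' ε := by
    intro ε
    simp only [hcdef]
    rw [Nat.mul_comm, Nat.mul_add_mod, Nat.mod_eq_of_lt (hq'lt ε)]
  have hcdiv : ∀ ε, c ε / (2 * N) = r := by
    intro ε
    simp only [hcdef]
    rw [Nat.mul_comm, Nat.mul_add_div (by omega), Nat.div_eq_of_lt (hq'lt ε), Nat.add_zero]
  have hccol : ∀ ε, col m (c ε) = ε := by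
    intro ε
    apply col_eq
    have h1 : ((c ε % KK m : ℕ) : ℤ) = (num ε : ℤ) := by
      push_cast
      rw [← hqm ε]
      have h2 : (c ε : ℤ) = q ε + KK m * ((2 * r + 1) * Pd) := by
        simp only [hcdef]
        push_cast
        rw [hq'z ε, hNdef]
        push_cast
        ring
      rw [h2, Int.add_mul_emod_self_left]
    exact_mod_cast h1
  have hclt : ∀ ε, c ε < (m + 1) * (2 * N) := by
    intro ε
    have h1 := hq'lt ε
    have h2 : r * (2 * N) ≤ m * (2 * N) := Nat.mul_le_mul_right _ hr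
    simp only [hcdef]
    have h3 : (m + 1) * (2 * N) = m * (2 * N) + 2 * N := by ring
    omega
  have hcinj : Function.Injective c := by
    intro ε ε' h
    rw [← hccol ε, ← hccol ε', h]
  -- the widths
  obtain ⟨μ, hμ, hμ'⟩ := exists_lower
    (fun ε : E m => ((q ε : ℝ) + 6 / 8) * η * hgt y₀ l ε - s ε) (by
      intro ε
      have h1 := hhi0 ε
      rw [div_lt_iff₀ (hYpos ε)] at h1
      linarith)
  obtain ⟨σ₀, σ₁, hσ0, hσ01, hσ1, hσ0B, hσ1B⟩ := exists_two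
    (B := Set.range fun x : E m × Fin m => (hgt y₀ l x.1 : ℝ) * t x.2 - s x.1)
    (Set.finite_range _) hμ
  have hlo : ∀ ε, (((c ε % (2 * N) : ℕ) : ℝ) - N + 1 / 8) * η < (s ε + σ₀) / hgt y₀ l ε := by
    intro ε
    rw [hcmod ε, hq'r ε]
    refine (hlo0 ε).trans ?_
    exact div_lt_div_of_pos_right (by linarith) (hYpos ε)
  have hhi : ∀ ε, (s ε + σ₁) / hgt y₀ l ε < (((c ε % (2 * N) : ℕ) : ℝ) - N + 6 / 8) * η := by
    intro ε
    rw [hcmod ε, hq'r ε, div_lt_iff₀ (hYpos ε)]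
    have := hμ' ε
    linarith
  have hbok := bcell_ok (l := l) hy1 hη hN hρη hρ hρ'
  have hmok := mcell_ok (l := l) (c := c) (s := s) hy1 hη hN hρη hρ hρ' hlo hσ01 hhi
  have hmc : ∀ ε, mcell y₀ l η N c s σ₀ σ₁ (c ε) =
      { a := (((c ε % (2 * N) : ℕ) : ℝ) - N + 1 / 8) * η
        b := (((c ε % (2 * N) : ℕ) : ℝ) - N + 6 / 8) * η
        h := bh y₀ l ε
        md := true
        p := (s ε + σ₀) / hgt y₀ l ε
        q := (s ε + σ₁) / hgt y₀ l ε
        k := bk y₀ l ε } := by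
    intro ε
    unfold mcell
    rw [if_pos (by rw [hccol ε]), hccol ε]
  have hbc : ∀ ε, (bcell y₀ l η N (c ε)).h = bh y₀ l ε := by
    intro ε
    show bh y₀ l (col m (c ε)) = _
    rw [hccol ε]
  refine ⟨cellPoly (m + 1) (2 * N) (mcell y₀ l η N c s σ₀ σ₁), starPolygon_cells hmok, ?_, ?_⟩
  · -- different
    set ε₀ : E m := fun _ => false
    have hsg : sg ε₀ = 1 := by
      unfold sg
      apply Finset.prod_eq_one
      intro a _
      simp [ε₀]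
    apply cellPoly_ne hbok hmok (c ε₀) (hclt ε₀) rfl
    · rw [hmc]
    · exact mcell_a ..
    · exact mcell_b ..
    · rw [hmc, hbc]
      show bh y₀ l ε₀ < bk y₀ l ε₀
      unfold bh bk
      rw [if_pos hsg, if_pos hsg]
      have := hYpos ε₀
      linarith
  · intro j x
    have hbj := (hfr j).1
    refine xray_eq (hP := (starPolygon_cells hbok).2.1) (hP' := (starPolygon_cells hmok).2.1)
      (r := r) (s := s) (y := fun ε => (hgt y₀ l ε : ℝ)) (sgn := sg) (σ₀ := σ₀) (σ₁ := σ₁)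
      (hy := hYpos) (hform := ?_) (u := d j) (hu := hbj) (hu0 := ?_) (hu1 := ?_) (hsum := ?_) x
    · intro z hz
      refine indicator_formula hbok hmok r c hcinj (fun ε => ⟨hclt ε, hcdiv ε⟩)
        (fun _ _ => rfl) ?_ ?_ s (fun ε => (hgt y₀ l ε : ℝ)) sg σ₀ σ₁ hYpos ?_ ?_ ?_ z hz
      · intro i hi
        unfold mcell
        rw [if_neg]
        intro h
        exact hi ⟨_, h⟩
      · intro ε
        exact ⟨mcell_a .., mcell_b .., mcell_h .., by rw [hmc]⟩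
      · intro ε
        rw [hmc]
      · intro ε
        rw [hmc]
      · intro ε
        rw [hmc, hbc]
        have hy := hYpos ε
        rcases sg_eq ε with h | h
        · left
          refine ⟨h, ?_, ?_⟩
          · unfold bh
            rw [if_pos h]
          · show bk y₀ l ε = _
            unfold bk
            rw [if_pos h]
        · right
          have h' : sg ε ≠ 1 := by rw [h]; norm_num
          refine ⟨h, ?_, ?_⟩
          · unfold bh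
            rw [if_neg h']
          · show bk y₀ l ε = _
            unfold bk
            rw [if_neg h']
    · intro ε h
      apply hσ0B
      refine ⟨(ε, j), ?_⟩
      show (hgt y₀ l ε : ℝ) * (al r (d j) / be r (d j)) - s ε = σ₀
      rw [mul_div_assoc', h]
      field_simp
      ring
    · intro ε h
      apply hσ1B
      refine ⟨(ε, j), ?_⟩
      show (hgt y₀ l ε : ℝ) * (al r (d j) / be r (d j)) - s ε = σ₁
      rw [mul_div_assoc', h]
      field_simp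
      ring
    · intro F
      have h := sum_zero (fun a => (l a : ℝ)) t (η * KK m * n) y₀ j F
      rw [← h]
      refine Finset.sum_congr rfl fun ε _ => ?_
      rw [hgt_cast]

end Pool.Agent.XR
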